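import Mathlib

set_option autoImplicit false

/-!
# Averages over independent coordinates

`av p k F` averages `F` over the coordinate `k` (which is `true` with probability `p k`),
`avs p m l F` over the coordinates `m, ..., m + l - 1`.
-/

namespace Pool.Agent.Q167.NS

open Finset

/-- average over one coordinate -/
def av (p : ℕ → ℝ) (k : ℕ) (F : (ℕ → Bool) → ℝ) (ω : ℕ → Bool) : ℝ :=
  p k * F (Function.update ω k true) + (1 - p k) * F (Function.update ω k false)

/-- average over the coordinates `m, ..., m + l - 1` -/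
def avs (p : ℕ → ℝ) : ℕ → ℕ → ((ℕ → Bool) → ℝ) → (ℕ → Bool) → ℝ
  | _, 0, F => F
  | m, l + 1, F => av p m (avs p (m + 1) l F)

/-- `F` depends only on the coordinates below `m` -/
def Dep {α : Type} (m : ℕ) (F : (ℕ → Bool) → α) : Prop :=
  ∀ ω ω' : ℕ → Bool, (∀ k < m, ω k = ω' k) → F ω = F ω'

variable {p : ℕ → ℝ}

theorem Dep.mono {α : Type} {m m' : ℕ} {F : (ℕ → Bool) → α} (h : Dep m F) (hm : m ≤ m') :
    Dep m' F := fun ω ω' hω => h ω ω' fun k hk => hω k (by omega)

theorem Dep.update {α : Type} {m k : ℕ} {F : (ℕ → Bool) → α} (h : Dep m F) (hk : m ≤ k)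
    (ω : ℕ → Bool) (b : Bool) : F (Function.update ω k b) = F ω := by
  refine h _ _ fun j hj => ?_
  rw [Function.update_of_ne (by omega)]

theorem avs_update (m l k : ℕ) (hk : k < m) (F : (ℕ → Bool) → ℝ) (ω : ℕ → Bool) (b : Bool) :
    avs p m l F (Function.update ω k b) = avs p m l (fun ω' => F (Function.update ω' k b)) ω := by
  induction l generalizing m ω with
  | zero => rfl
  | succ l ih =>
    simp only [avs, av]
    rw [Function.update_comm (by omega : k ≠ m), Function.update_comm (by omega : k ≠ m),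
      ih (m + 1) (by omega), ih (m + 1) (by omega)]

theorem avs_add (m l : ℕ) (F G : (ℕ → Bool) → ℝ) (ω : ℕ → Bool) :
    avs p m l (fun ω' => F ω' + G ω') ω = avs p m l F ω + avs p m l G ω := by
  induction l generalizing m ω with
  | zero => rfl
  | succ l ih =>
    simp only [avs, av]
    rw [ih, ih]
    ring

theorem avs_mul (m l : ℕ) (c F : (ℕ → Bool) → ℝ) (hc : Dep m c) (ω : ℕ → Bool) :
    avs p m l (fun ω' => c ω' * F ω') ω = c ω * avs p m l F ω := by
  induction l generalizing m ω with
  | zero => rfl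
  | succ l ih =>
    simp only [avs, av]
    rw [ih (m + 1) (hc.mono (by omega)), ih (m + 1) (hc.mono (by omega)), hc.update le_rfl,
      hc.update le_rfl]
    ring

theorem avs_const (m l : ℕ) (c : ℝ) (ω : ℕ → Bool) : avs p m l (fun _ => c) ω = c := by
  induction l generalizing m ω with
  | zero => rfl
  | succ l ih =>
    simp only [avs, av]
    rw [ih, ih]
    ring

theorem avs_mono (h0 : ∀ k, 0 ≤ p k) (h1 : ∀ k, p k ≤ 1) (m l : ℕ) {F G : (ℕ → Bool) → ℝ}
    (h : ∀ ω, F ω ≤ G ω) (ω : ℕ → Bool) : avs p m l F ω ≤ avs p m l G ω := by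
  induction l generalizing m ω with
  | zero => exact h ω
  | succ l ih =>
    simp only [avs, av]
    have a := mul_le_mul_of_nonneg_left (ih (m + 1) (Function.update ω m true)) (h0 m)
    have b := mul_le_mul_of_nonneg_left (ih (m + 1) (Function.update ω m false))
      (sub_nonneg.2 (h1 m))
    linarith

theorem avs_avs (m l l' : ℕ) (F : (ℕ → Bool) → ℝ) :
    avs p m (l + l') F = avs p m l (avs p (m + l) l' F) := by
  induction l generalizing m with
  | zero =>
    simp only [Nat.zero_add, Nat.add_zero]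
    rfl
  | succ l ih =>
    rw [show l + 1 + l' = (l + l') + 1 by ring]
    simp only [avs]
    rw [ih (m + 1), show m + 1 + l = m + (l + 1) by ring]

theorem dep_av {m : ℕ} {F : (ℕ → Bool) → ℝ} (h : Dep (m + 1) F) : Dep m (av p m F) := by
  intro ω ω' hω
  unfold av
  have h1 : ∀ b : Bool, F (Function.update ω m b) = F (Function.update ω' m b) := by
    intro b
    refine h _ _ fun j hj => ?_
    by_cases hjm : j = m
    · subst hjm
      rw [Function.update_self, Function.update_self]
    · rw [Function.update_of_ne hjm, Function.update_of_ne hjm]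
      exact hω j (by omega)
  rw [h1, h1]

/-- averaging keeps the dependence on finitely many coordinates -/
theorem dep_av' {m k : ℕ} {F : (ℕ → Bool) → ℝ} (h : Dep m F) : Dep m (av p k F) := by
  intro ω ω' hω
  unfold av
  have h1 : ∀ b : Bool, F (Function.update ω k b) = F (Function.update ω' k b) := by
    intro b
    refine h _ _ fun j hj => ?_
    by_cases hjm : j = k
    · subst hjm
      rw [Function.update_self, Function.update_self]
    · rw [Function.update_of_ne hjm, Function.update_of_ne hjm]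
      exact hω j hj
  rw [h1, h1]

theorem dep_avs' {m k l : ℕ} {F : (ℕ → Bool) → ℝ} (h : Dep m F) : Dep m (avs p k l F) := by
  induction l generalizing k with
  | zero => exact h
  | succ l ih => exact dep_av' (ih (k := k + 1))

/-- the probability of a property that is forced by a flip -/
theorem flip_lower (h0 : ∀ k, 0 ≤ p k) (h1 : ∀ k, p k ≤ 1) (m l : ℕ) (F : (ℕ → Bool) → ℝ)
    (hF : ∀ ω, 0 ≤ F ω) (β : ℕ → ℝ) (hβ0 : ∀ k, 0 ≤ β k) (hβ1 : ∀ k, β k ≤ 2 * p k)
    (hβ2 : ∀ k, β k ≤ 2 * (1 - p k))
    (h : ∀ k, β k ≠ 0 → ∀ ω, 1 ≤ F (Function.update ω k true) + F (Function.update ω k false))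
    (ω : ℕ → Bool) :
    (1 - ∏ i ∈ range l, (1 - β (m + i))) / 2 ≤ avs p m l F ω := by
  induction l generalizing m ω with
  | zero => simpa [avs] using hF ω
  | succ l ih =>
    simp only [avs, av]
    set P' := ∏ i ∈ range l, (1 - β (m + 1 + i)) with hP'
    have e1 : ∏ i ∈ range (l + 1), (1 - β (m + i)) = (1 - β m) * P' := by
      rw [Finset.prod_range_succ', Nat.add_zero, mul_comm, hP']
      congr 1
      exact Finset.prod_congr rfl fun i _ => by rw [show m + (i + 1) = m + 1 + i by ring]
    rw [e1]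
    have i1 := ih (m + 1) (Function.update ω m true)
    have i2 := ih (m + 1) (Function.update ω m false)
    rw [← hP'] at i1 i2
    by_cases hb : β m = 0
    · rw [hb]
      have a := mul_le_mul_of_nonneg_left i1 (h0 m)
      have b := mul_le_mul_of_nonneg_left i2 (sub_nonneg.2 (h1 m))
      linarith
    · have i3 : 1 ≤ avs p (m + 1) l F (Function.update ω m true) +
          avs p (m + 1) l F (Function.update ω m false) := by
        rw [avs_update (m + 1) l m (by omega), avs_update (m + 1) l m (by omega), ← avs_add]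
        refine le_trans (le_of_eq (avs_const (p := p) (m + 1) l 1 ω).symm) ?_
        exact avs_mono h0 h1 _ _ (fun ω' => h m hb ω') ω
      have a := mul_le_mul_of_nonneg_left i1 (sub_nonneg.2 (hβ1 m))
      have b := mul_le_mul_of_nonneg_left i2 (sub_nonneg.2 (hβ2 m))
      have c := mul_le_mul_of_nonneg_left i3 (hβ0 m)
      nlinarith

/-- the bias of a function that is multiplied by `ε k` when the coordinate `k` is flipped -/
theorem bias (m₀ m l : ℕ) (hm : m₀ ≤ m) (F : (ℕ → Bool) → ℝ) (hF : ∀ ω, |F ω| ≤ 1)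
    (ε : ℕ → (ℕ → Bool) → ℝ) (hε : ∀ k, Dep m₀ (ε k))
    (h : ∀ k, m ≤ k → k < m + l → ∀ ω, F (Function.update ω k true) =
      ε k ω * F (Function.update ω k false)) (ω : ℕ → Bool) :
    |avs p m l F ω| ≤ ∏ i ∈ range l, |1 - p (m + i) + p (m + i) * ε (m + i) ω| := by
  induction l generalizing m ω with
  | zero => simpa [avs] using hF ω
  | succ l ih =>
    simp only [avs, av]
    have e0 : avs p (m + 1) l F (Function.update ω m true) =
        ε m ω * avs p (m + 1) l F (Function.update ω m false) := by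
      rw [avs_update (m + 1) l m (by omega), avs_update (m + 1) l m (by omega),
        ← avs_mul (m + 1) l (ε m) _ ((hε m).mono (by omega))]
      congr 1
      funext ω'
      exact h m le_rfl (by omega) ω'
    rw [e0]
    have e1 : p m * (ε m ω * avs p (m + 1) l F (Function.update ω m false)) +
        (1 - p m) * avs p (m + 1) l F (Function.update ω m false) =
        (1 - p m + p m * ε m ω) * avs p (m + 1) l F (Function.update ω m false) := by ring
    rw [e1, abs_mul, Finset.prod_range_succ', Nat.add_zero, mul_comm]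
    refine mul_le_mul_of_nonneg_right ?_ (abs_nonneg _)
    refine (ih (m + 1) (by omega) (fun k hk hk' => h k (by omega) (by omega))
      (Function.update ω m false)).trans (le_of_eq ?_)
    refine Finset.prod_congr rfl fun i _ => ?_
    rw [(hε (m + 1 + i)).update hm, show m + 1 + i = m + (i + 1) by ring]

/-- many blocks -/
theorem blocks (h0 : ∀ k, 0 ≤ p k) (h1 : ∀ k, p k ≤ 1) (M Λ : ℕ) (F : ℕ → (ℕ → Bool) → ℝ)
    (hF0 : ∀ b ω, 0 ≤ F b ω) (hF1 : ∀ b ω, F b ω ≤ 1) (hd : ∀ b, Dep (M + (b + 1) * Λ) (F b))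
    (c : ℝ) (hc : ∀ b ω, c ≤ avs p (M + b * Λ) Λ (F b) ω) (hc1 : c ≤ 1) (B : ℕ) (ω : ℕ → Bool) :
    avs p M (B * Λ) (fun ω' => ∏ b ∈ range B, (1 - F b ω' / 2)) ω ≤ (1 - c / 2) ^ B := by
  induction B with
  | zero => simp [avs]
  | succ B ih =>
    rw [show (B + 1) * Λ = B * Λ + Λ by ring, avs_avs]
    have hpos : ∀ ω', 0 ≤ ∏ b ∈ range B, (1 - F b ω' / 2) := fun ω' =>
      Finset.prod_nonneg fun b _ => by linarith [hF1 b ω', hF0 b ω']
    have e1 : ∀ ω', avs p (M + B * Λ) Λ (fun ω' => ∏ b ∈ range (B + 1), (1 - F b ω' / 2)) ω' ≤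
        (1 - c / 2) * ∏ b ∈ range B, (1 - F b ω' / 2) := by
      intro ω'
      have e2 : (fun ω' => ∏ b ∈ range (B + 1), (1 - F b ω' / 2)) =
          fun ω' => (∏ b ∈ range B, (1 - F b ω' / 2)) * (1 + (-(1 / 2)) * F B ω') := by
        funext ω'
        rw [Finset.prod_range_succ]
        ring
      rw [e2, avs_mul _ _ (fun ω' => ∏ b ∈ range B, (1 - F b ω' / 2)) _ ?_]
      · rw [avs_add, avs_const, avs_mul _ _ (fun _ => -(1 / 2 : ℝ)) _ (fun _ _ _ => rfl), mul_comm]
        refine mul_le_mul_of_nonneg_right ?_ (hpos ω')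
        have := hc B ω'
        linarith
      · intro ω1 ω2 hω
        refine Finset.prod_congr rfl fun b hb => ?_
        rw [Finset.mem_range] at hb
        rw [hd b ω1 ω2 fun k hk => hω k (hk.trans_le ?_)]
        have : (b + 1) * Λ ≤ B * Λ := Nat.mul_le_mul_right _ hb
        omega
    refine (avs_mono h0 h1 _ _ e1 ω).trans ?_
    rw [avs_mul _ _ (fun _ => 1 - c / 2) _ (fun _ _ _ => rfl), pow_succ, mul_comm ((1 - c / 2) ^ B)]
    exact mul_le_mul_of_nonneg_left ih (by linarith)

end Pool.Agent.Q167.NS
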