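import Pool.Agent.Q167.NS.A

set_option autoImplicit false

/-!
# Reciprocals of power series over the field with two elements with errors in the coefficients
-/

namespace Pool.Agent.Q167.NS

open Finset

/-- the errors: `q^k` for all `k ≥ 1` with `ω k = true` -/
noncomputable def noise (ω : ℕ → Bool) : PowerSeries (ZMod 2) :=
  PowerSeries.mk fun k => if ω k = true ∧ 1 ≤ k then 1 else 0

/-- coefficients of the reciprocal of the disturbed series -/
noncomputable def rr (G : PowerSeries (ZMod 2)) (ω : ℕ → Bool) (n : ℕ) : ZMod 2 :=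
  PowerSeries.coeff n (G + noise ω)⁻¹

theorem coeff_sq (f : PowerSeries (ZMod 2)) (m : ℕ) :
    PowerSeries.coeff m (f * f) = if Even m then PowerSeries.coeff (m / 2) f else 0 := by
  rw [PowerSeries.coeff_mul, ← Finset.sum_filter_add_sum_filter_not _ (fun x : ℕ × ℕ => x.1 = x.2)]
  have h2 : ∑ x ∈ (antidiagonal m).filter (fun x : ℕ × ℕ => ¬ x.1 = x.2),
      PowerSeries.coeff x.1 f * PowerSeries.coeff x.2 f = 0 := by
    refine Finset.sum_involution (fun x _ => x.swap) ?_ ?_ ?_ ?_
    · intro x _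
      simp only [Prod.fst_swap, Prod.snd_swap]
      rw [mul_comm (PowerSeries.coeff x.2 f)]
      exact CharTwo.add_self_eq_zero _
    · intro x hx _ h
      have := (Finset.mem_filter.1 hx).2
      apply this
      have h1 := congrArg Prod.fst h
      simpa using h1.symm
    · intro x hx
      obtain ⟨h3, h4⟩ := Finset.mem_filter.1 hx
      refine Finset.mem_filter.2 ⟨?_, ?_⟩
      · rw [Finset.HasAntidiagonal.mem_antidiagonal] at h3 ⊢
        simp only [Prod.fst_swap, Prod.snd_swap]
        omega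
      · simp only [Prod.fst_swap, Prod.snd_swap]
        exact fun h => h4 h.symm
    · intro x _
      exact Prod.swap_swap x
  rw [h2, add_zero]
  split_ifs with h
  · obtain ⟨j, hj⟩ := h
    have h3 : (antidiagonal m).filter (fun x : ℕ × ℕ => x.1 = x.2) = {(m / 2, m / 2)} := by
      ext ⟨a, b⟩
      simp only [Finset.mem_filter, Finset.HasAntidiagonal.mem_antidiagonal, Finset.mem_singleton, Prod.mk.injEq]
      omega
    rw [h3, Finset.sum_singleton]
    generalize PowerSeries.coeff (m / 2) f = x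
    revert x
    decide
  · have h3 : (antidiagonal m).filter (fun x : ℕ × ℕ => x.1 = x.2) = ∅ := by
      ext ⟨a, b⟩
      simp only [Finset.mem_filter, Finset.HasAntidiagonal.mem_antidiagonal, Finset.notMem_empty, iff_false,
        not_and]
      intro h4 h5
      exact h ⟨a, by omega⟩
    rw [h3, Finset.sum_empty]

variable {G : PowerSeries (ZMod 2)}

theorem constCoeff (hG : PowerSeries.constantCoeff G = 1) (ω : ℕ → Bool) :
    PowerSeries.constantCoeff (G + noise ω) ≠ 0 := by
  rw [map_add, hG]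
  have : PowerSeries.constantCoeff (noise ω) = 0 := by
    rw [← PowerSeries.coeff_zero_eq_constantCoeff_apply, noise, PowerSeries.coeff_mk]
    simp
  rw [this, add_zero]
  exact one_ne_zero

theorem rr_zero (hG : PowerSeries.constantCoeff G = 1) (ω : ℕ → Bool) : rr G ω 0 = 1 := by
  rw [rr, PowerSeries.coeff_zero_eq_constantCoeff_apply, PowerSeries.constantCoeff_inv, map_add, hG]
  have : PowerSeries.constantCoeff (noise ω) = 0 := by
    rw [← PowerSeries.coeff_zero_eq_constantCoeff_apply, noise, PowerSeries.coeff_mk]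
    simp
  rw [this, add_zero, inv_one]

/-- the `n`-th coefficient depends on the errors up to `n` -/
theorem dep_rr (hG : PowerSeries.constantCoeff G = 1) (n : ℕ) :
    Dep (n + 1) (fun ω => rr G ω n) := by
  intro ω ω' hω
  simp only [rr]
  have h1 := PowerSeries.mul_inv_cancel (G + noise ω) (constCoeff hG ω)
  have h2 := PowerSeries.mul_inv_cancel (G + noise ω') (constCoeff hG ω')
  have h3 : (PowerSeries.X : PowerSeries (ZMod 2)) ^ (n + 1) ∣ (noise ω' - noise ω) := by
    rw [PowerSeries.X_pow_dvd_iff]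
    intro m hm
    rw [map_sub, noise, noise, PowerSeries.coeff_mk, PowerSeries.coeff_mk, hω m hm, sub_self]
  obtain ⟨c, hc⟩ := h3
  have h4 : (G + noise ω)⁻¹ - (G + noise ω')⁻¹ =
      PowerSeries.X ^ (n + 1) * (c * ((G + noise ω)⁻¹ * (G + noise ω')⁻¹)) := by
    have h5 : (G + noise ω)⁻¹ - (G + noise ω')⁻¹ =
        (noise ω' - noise ω) * ((G + noise ω)⁻¹ * (G + noise ω')⁻¹) := by
      linear_combination (-(G + noise ω)⁻¹) * h2 + (G + noise ω')⁻¹ * h1
    rw [h5, hc]
    ring
  have h6 := congrArg (PowerSeries.coeff n) h4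
  rw [map_sub, PowerSeries.coeff_X_pow_mul', if_neg (by omega)] at h6
  exact sub_eq_zero.1 h6

/-- the effect of one error -/
theorem rr_flip (hG : PowerSeries.constantCoeff G = 1) (ω : ℕ → Bool) (k n : ℕ) (hk : 1 ≤ k)
    (hn : n < 2 * k) :
    rr G (Function.update ω k true) n = rr G (Function.update ω k false) n +
      if k ≤ n ∧ Even (n - k) then rr G ω ((n - k) / 2) else 0 := by
  have e1 : G + noise (Function.update ω k true) =
      (G + noise (Function.update ω k false)) + PowerSeries.X ^ k := by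
    rw [add_assoc]
    congr 1
    ext m
    rw [map_add, noise, noise, PowerSeries.coeff_mk, PowerSeries.coeff_mk, PowerSeries.coeff_X_pow]
    by_cases h : m = k
    · subst h
      simp [hk]
    · rw [Function.update_of_ne h, Function.update_of_ne h, if_neg h, add_zero]
  set F0 := G + noise (Function.update ω k false) with hF0
  have h1 := PowerSeries.mul_inv_cancel F0 (constCoeff hG _)
  have h2 := PowerSeries.mul_inv_cancel (F0 + PowerSeries.X ^ k) (by
    rw [← e1]
    exact constCoeff hG _)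
  have h20 : (2 : PowerSeries (ZMod 2)) = 0 := by
    have : (2 : PowerSeries (ZMod 2)) = PowerSeries.C (2 : ZMod 2) := by
      rw [map_ofNat]
    rw [this, show (2 : ZMod 2) = 0 from rfl, map_zero]
  have h3 : (F0 + PowerSeries.X ^ k)⁻¹ = F0⁻¹ + PowerSeries.X ^ k * (F0⁻¹ * F0⁻¹) +
      PowerSeries.X ^ (2 * k) * (F0⁻¹ * F0⁻¹ * (F0 + PowerSeries.X ^ k)⁻¹) := by
    rw [two_mul, pow_add]
    generalize (F0 + PowerSeries.X ^ k)⁻¹ = b at h2 ⊢
    generalize F0⁻¹ = a at h1 ⊢
    generalize (PowerSeries.X : PowerSeries (ZMod 2)) ^ k = x at h2 ⊢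
    linear_combination (1 - a * x) * (a * h2 - b * h1) - a ^ 2 * x * h20
  have h4 := congrArg (PowerSeries.coeff n) h3
  rw [map_add, map_add, PowerSeries.coeff_X_pow_mul', PowerSeries.coeff_X_pow_mul',
    if_neg (by omega : ¬ 2 * k ≤ n), add_zero] at h4
  simp only [rr]
  rw [e1, h4]
  congr 1
  by_cases hkn : k ≤ n
  · rw [if_pos hkn, coeff_sq]
    by_cases he : Even (n - k)
    · rw [if_pos he, if_pos ⟨hkn, he⟩]
      exact (dep_rr hG ((n - k) / 2)).update (by omega) ω false
    · rw [if_neg he, if_neg (fun h => he h.2)]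
  · rw [if_neg hkn, if_neg (fun h => hkn h.1)]

/-- the linear form of the coefficients with the shifts in `S` -/
noncomputable def lin (G : PowerSeries (ZMod 2)) (S : Finset ℕ) (ω : ℕ → Bool) (n : ℕ) : ZMod 2 :=
  ∑ l ∈ S, rr G ω (n + l)

/-- the coefficient of an error at the place `k` in the linear form -/
noncomputable def cf (G : PowerSeries (ZMod 2)) (S : Finset ℕ) (ω : ℕ → Bool) (n k : ℕ) : ZMod 2 :=
  ∑ l ∈ S, if k ≤ n + l ∧ Even (n + l - k) then rr G ω ((n + l - k) / 2) else 0

/-- the halves of the even elements -/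
def half (S : Finset ℕ) : Finset ℕ := (S.filter Even).image (· / 2)

theorem dep_lin (hG : PowerSeries.constantCoeff G = 1) (S : Finset ℕ) (L : ℕ) (hS : ∀ l ∈ S, l ≤ L)
    (n : ℕ) : Dep (n + L + 1) (fun ω => lin G S ω n) := by
  intro ω ω' hω
  refine Finset.sum_congr rfl fun l hl => ?_
  have := hS l hl
  exact dep_rr hG (n + l) ω ω' fun k hk => hω k (by omega)

theorem dep_cf (hG : PowerSeries.constantCoeff G = 1) (S : Finset ℕ) (L : ℕ) (hS : ∀ l ∈ S, l ≤ L)
    (n k m : ℕ) (hm : n + L < 2 * m) (hk : m ≤ k) : Dep m (fun ω => cf G S ω n k) := by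
  intro ω ω' hω
  refine Finset.sum_congr rfl fun l hl => ?_
  have := hS l hl
  split_ifs with h
  · exact dep_rr hG _ ω ω' fun j hj => hω j (by omega)
  · rfl

theorem lin_flip (hG : PowerSeries.constantCoeff G = 1) (S : Finset ℕ) (L : ℕ)
    (hS : ∀ l ∈ S, l ≤ L) (ω : ℕ → Bool) (k n : ℕ) (hk : 1 ≤ k) (hn : n + L < 2 * k) :
    lin G S (Function.update ω k true) n = lin G S (Function.update ω k false) n +
      cf G S ω n k := by
  unfold lin cf
  rw [← Finset.sum_add_distrib]
  refine Finset.sum_congr rfl fun l hl => ?_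
  have := hS l hl
  exact rr_flip hG ω k (n + l) hk (by omega)

theorem cf_eq (S : Finset ℕ) (ω : ℕ → Bool) (k t : ℕ) :
    cf G S ω (k + 2 * t) k = lin G (half S) ω t := by
  unfold cf lin half
  have h1 : ∀ l ∈ S, (if k ≤ k + 2 * t + l ∧ Even (k + 2 * t + l - k)
      then rr G ω ((k + 2 * t + l - k) / 2) else 0) =
      if Even l then rr G ω (t + l / 2) else 0 := by
    intro l _
    have e1 : k + 2 * t + l - k = 2 * t + l := by omega
    rw [e1]
    by_cases hl : Even l
    · have e2 : (2 * t + l) / 2 = t + l / 2 := by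
        obtain ⟨j, hj⟩ := hl
        omega
      rw [if_pos hl, if_pos ⟨by omega, (even_two_mul t).add hl⟩, e2]
    · rw [if_neg hl, if_neg]
      rintro ⟨_, h⟩
      exact hl ((Nat.even_add.1 h).1 (even_two_mul t))
  rw [Finset.sum_congr rfl h1, ← Finset.sum_filter, Finset.sum_image]
  intro a ha b hb hab
  obtain ⟨a', ha'⟩ := (Finset.mem_filter.1 ha).2
  obtain ⟨b', hb'⟩ := (Finset.mem_filter.1 hb).2
  simp only at hab
  omega

theorem zero_mem_half {S : Finset ℕ} (h : 0 ∈ S) : 0 ∈ half S :=
  Finset.mem_image.2 ⟨0, Finset.mem_filter.2 ⟨h, Even.zero⟩, rfl⟩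

theorem half_le {S : Finset ℕ} {L : ℕ} (hS : ∀ l ∈ S, l ≤ L) : ∀ l ∈ half S, l ≤ L / 2 := by
  intro l hl
  obtain ⟨a, ha, rfl⟩ := Finset.mem_image.1 hl
  have := hS a (Finset.mem_filter.1 ha).1
  exact Nat.div_le_div_right this

/-- the number of nonzero values below `h` -/
noncomputable def Y (G : PowerSeries (ZMod 2)) (S : Finset ℕ) (h : ℕ) (ω : ℕ → Bool) : ℕ :=
  ((range h).filter fun t => lin G S ω t ≠ 0).card

theorem dep_Y (hG : PowerSeries.constantCoeff G = 1) (S : Finset ℕ) (L : ℕ) (hS : ∀ l ∈ S, l ≤ L)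
    (h : ℕ) : Dep (h + L) (Y G S h) := by
  intro ω ω' hω
  unfold Y
  congr 1
  refine Finset.filter_congr fun t ht => ?_
  rw [Finset.mem_range] at ht
  have h1 : lin G S ω t = lin G S ω' t :=
    dep_lin hG S L hS t ω ω' fun k hk => hω k (by omega)
  rw [h1]

/-- the sign of a bit -/
noncomputable def sg (x : ZMod 2) : ℝ := if x = 0 then 1 else -1

theorem sg_add (x y : ZMod 2) : sg (x + y) = sg x * sg y := by
  have h : ∀ x y : ZMod 2, (x + y = 0 ↔ (x = 0 ↔ y = 0)) := by decide
  unfold sg
  by_cases hx : x = 0 <;> by_cases hy : y = 0 <;> simp [h x y, hx, hy]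

theorem abs_sg (x : ZMod 2) : |sg x| = 1 := by
  unfold sg
  split_ifs <;> simp

theorem sg_sum {ι : Type} (s : Finset ι) (f : ι → ZMod 2) :
    sg (∑ i ∈ s, f i) = ∏ i ∈ s, sg (f i) := by
  classical
  induction s using Finset.induction_on with
  | empty => simp [sg]
  | insert a s ha ih => rw [Finset.sum_insert ha, Finset.prod_insert ha, sg_add, ih]

end Pool.Agent.Q167.NS
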