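import Pool.Agent.Q167.NS.B

set_option autoImplicit false

/-!
# Independent random bits
-/

namespace Pool.Agent.Q167.NS

open Finset MeasureTheory ProbabilityTheory

variable {Ω : Type} [MeasurableSpace Ω]

/-- independent random bits, the `k`-th of them is `true` with probability `p k` -/
structure Bits (P : Measure Ω) (ξ : ℕ → Ω → Bool) (p : ℕ → ℝ) : Prop where
  meas : ∀ k, Measurable (ξ k)
  indep : iIndepFun ξ P
  prob : ∀ k, P.real {ω | ξ k ω = true} = p k

/-- the sequence of the bits -/
def path (ξ : ℕ → Ω → Bool) (ω : Ω) : ℕ → Bool := fun k => ξ k ω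

/-- extension of finitely many bits by `false` -/
def ext (M : ℕ) (y : Fin M → Bool) : ℕ → Bool := fun j => if h : j < M then y ⟨j, h⟩ else false

theorem Dep.eq_ext {α : Type} {M : ℕ} {F : (ℕ → Bool) → α} (h : Dep M F) (ω : ℕ → Bool) :
    F ω = F (ext M fun i => ω i) :=
  h _ _ fun k hk => by simp [ext, hk]

theorem Dep.bounded {M : ℕ} {F : (ℕ → Bool) → ℝ} (h : Dep M F) : ∃ C, ∀ ω, |F ω| ≤ C := by
  refine ⟨∑ y : Fin M → Bool, |F (ext M y)|, fun ω => ?_⟩
  rw [h.eq_ext ω]
  exact Finset.single_le_sum (f := fun y : Fin M → Bool => |F (ext M y)|)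
    (fun y _ => abs_nonneg _) (Finset.mem_univ _)

variable {P : Measure Ω} [IsProbabilityMeasure P] {ξ : ℕ → Ω → Bool} {p : ℕ → ℝ}

omit [IsProbabilityMeasure P] in
theorem Bits.measurable {α : Type} [MeasurableSpace α] (hξ : Bits P ξ p) {M : ℕ}
    {F : (ℕ → Bool) → α} (h : Dep M F) : Measurable fun ω => F (path ξ ω) := by
  have e : (fun ω => F (path ξ ω)) = (fun y : Fin M → Bool => F (ext M y)) ∘
      fun ω (i : Fin M) => ξ i ω := by
    funext ω
    exact h.eq_ext _
  rw [e]
  exact Measurable.of_discrete.comp (measurable_pi_iff.2 fun i => hξ.meas i)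

theorem Bits.integrable (hξ : Bits P ξ p) {M : ℕ} {F : (ℕ → Bool) → ℝ} (h : Dep M F) :
    Integrable (fun ω => F (path ξ ω)) P := by
  obtain ⟨C, hC⟩ := h.bounded
  exact Integrable.of_bound (hξ.measurable h).aestronglyMeasurable C
    (Filter.Eventually.of_forall fun ω => by
      rw [Real.norm_eq_abs]
      exact hC _)

theorem Bits.prob_false (hξ : Bits P ξ p) (k : ℕ) : P.real {ω | ξ k ω = false} = 1 - p k := by
  have e : {ω | ξ k ω = false} = {ω | ξ k ω = true}ᶜ := by
    ext ω
    simp
  rw [e, measureReal_compl, hξ.prob, probReal_univ]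
  exact hξ.meas k (measurableSet_singleton true)

theorem Bits.p_nonneg (hξ : Bits P ξ p) (k : ℕ) : 0 ≤ p k := by
  rw [← hξ.prob k]
  exact measureReal_nonneg

theorem Bits.p_le (hξ : Bits P ξ p) (k : ℕ) : p k ≤ 1 := by
  rw [← hξ.prob k]
  exact measureReal_le_one

/-- a function of the other bits is independent of the bit `k` -/
theorem Bits.one (hξ : Bits P ξ p) {M : ℕ} {F : (ℕ → Bool) → ℝ} (h : Dep M F) (k : ℕ) (b : Bool) :
    ∫ ω, (if ξ k ω = b then (1 : ℝ) else 0) * F (Function.update (path ξ ω) k b) ∂P =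
      P.real {ω | ξ k ω = b} * ∫ ω, F (Function.update (path ξ ω) k b) ∂P := by
  classical
  set S : Finset ℕ := (range M).erase k with hS
  have hd : Disjoint ({k} : Finset ℕ) S := by
    rw [Finset.disjoint_singleton_left, hS]
    exact Finset.notMem_erase _ _
  have h1 := hξ.indep.indepFun_finset {k} S hd hξ.meas
  set φ : (↥({k} : Finset ℕ) → Bool) → ℝ := fun z =>
    if z ⟨k, Finset.mem_singleton_self k⟩ = b then 1 else 0 with hφ
  set ψ : (↥S → Bool) → ℝ := fun y =>
    F (fun j => if h : j ∈ S then y ⟨j, h⟩ else if j = k then b else false) with hψ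
  have h2 := h1.comp (φ := φ) (ψ := ψ) Measurable.of_discrete Measurable.of_discrete
  have e1 : (fun ω => F (Function.update (path ξ ω) k b)) =
      ψ ∘ fun a (i : S) => ξ i a := by
    funext ω
    simp only [hψ, Function.comp_apply]
    refine h _ _ fun j hj => ?_
    by_cases hjk : j = k
    · subst hjk
      rw [Function.update_self, dif_neg (fun h => (Finset.mem_erase.1 h).1 rfl), if_pos rfl]
    · rw [Function.update_of_ne hjk, dif_pos (Finset.mem_erase.2 ⟨hjk, Finset.mem_range.2 hj⟩)]
      rfl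
  have e2 : (fun ω => if ξ k ω = b then (1 : ℝ) else 0) =
      φ ∘ fun a (i : ({k} : Finset ℕ)) => ξ i a := rfl
  rw [← e1, ← e2] at h2
  have hm1 : Measurable fun ω => if ξ k ω = b then (1 : ℝ) else 0 :=
    Measurable.ite (hξ.meas k (measurableSet_singleton b)) measurable_const measurable_const
  have hm2 : Measurable fun ω => F (Function.update (path ξ ω) k b) := by
    have : Dep (M + k + 1) (fun ω' => F (Function.update ω' k b)) := by
      intro ω ω' hω
      refine h _ _ fun j hj => ?_
      by_cases hjk : j = k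
      · subst hjk
        rw [Function.update_self, Function.update_self]
      · rw [Function.update_of_ne hjk, Function.update_of_ne hjk, hω j (by omega)]
    exact hξ.measurable this
  rw [h2.integral_fun_mul_eq_mul_integral hm1.aestronglyMeasurable hm2.aestronglyMeasurable]
  congr 1
  have e3 : (fun ω => if ξ k ω = b then (1 : ℝ) else 0) =
      Set.indicator {ω | ξ k ω = b} (fun _ => (1 : ℝ)) := by
    funext ω
    simp [Set.indicator_apply]
  have hms : MeasurableSet {ω | ξ k ω = b} := hξ.meas k (measurableSet_singleton b)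
  rw [e3, integral_indicator_const _ hms, smul_eq_mul, mul_one]

theorem dep_upd {M : ℕ} {F : (ℕ → Bool) → ℝ} (h : Dep M F) (k : ℕ) (b : Bool) :
    Dep M (fun ω' => F (Function.update ω' k b)) := by
  intro ω ω' hω
  refine h _ _ fun j hj => ?_
  by_cases hjk : j = k
  · subst hjk
    rw [Function.update_self, Function.update_self]
  · rw [Function.update_of_ne hjk, Function.update_of_ne hjk, hω j hj]

/-- the expectation is not changed by averaging over one coordinate -/
theorem Bits.integral_av (hξ : Bits P ξ p) {M : ℕ} {F : (ℕ → Bool) → ℝ} (h : Dep M F) (k : ℕ) :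
    ∫ ω, av p k F (path ξ ω) ∂P = ∫ ω, F (path ξ ω) ∂P := by
  have hi : ∀ b, Integrable (fun ω => F (Function.update (path ξ ω) k b)) P := fun b =>
    hξ.integrable (dep_upd h k b)
  have hi' : ∀ b, Integrable (fun ω => (if ξ k ω = b then (1 : ℝ) else 0) *
      F (Function.update (path ξ ω) k b)) P := by
    intro b
    obtain ⟨C, hC⟩ := (dep_upd h k b).bounded
    refine (hi b).bdd_mul (c := 1) (Measurable.ite (hξ.meas k (measurableSet_singleton b))
      measurable_const measurable_const).aestronglyMeasurable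
      (Filter.Eventually.of_forall fun ω => ?_)
    split_ifs <;> simp
  have e1 : ∀ ω, F (path ξ ω) = (if ξ k ω = true then (1 : ℝ) else 0) *
      F (Function.update (path ξ ω) k true) + (if ξ k ω = false then (1 : ℝ) else 0) *
      F (Function.update (path ξ ω) k false) := by
    intro ω
    have hk : path ξ ω k = ξ k ω := rfl
    cases hb : ξ k ω with
    | true =>
      have : Function.update (path ξ ω) k true = path ξ ω := by
        rw [← hb, ← hk]
        exact Function.update_eq_self k _
      rw [this]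
      simp
    | false =>
      have : Function.update (path ξ ω) k false = path ξ ω := by
        rw [← hb, ← hk]
        exact Function.update_eq_self k _
      rw [this]
      simp
  have e2 : ∫ ω, F (path ξ ω) ∂P = p k * ∫ ω, F (Function.update (path ξ ω) k true) ∂P +
      (1 - p k) * ∫ ω, F (Function.update (path ξ ω) k false) ∂P := by
    rw [integral_congr_ae (Filter.Eventually.of_forall e1), integral_add (hi' true) (hi' false),
      hξ.one h, hξ.one h, hξ.prob, hξ.prob_false]
  rw [e2]
  unfold av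
  rw [integral_add ((hi true).const_mul _) ((hi false).const_mul _), integral_const_mul,
    integral_const_mul]

theorem Bits.integral_avs (hξ : Bits P ξ p) {M : ℕ} {F : (ℕ → Bool) → ℝ} (h : Dep M F)
    (m l : ℕ) : ∫ ω, avs p m l F (path ξ ω) ∂P = ∫ ω, F (path ξ ω) ∂P := by
  induction l generalizing m with
  | zero => rfl
  | succ l ih =>
    simp only [avs]
    rw [hξ.integral_av (dep_avs' h (k := m + 1) (l := l)), ih]

/-- few successes in many blocks -/
theorem Bits.few (hξ : Bits P ξ p) (M Λ : ℕ) (F : ℕ → (ℕ → Bool) → ℝ)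
    (hF : ∀ b ω, F b ω = 0 ∨ F b ω = 1) (hd : ∀ b, Dep (M + (b + 1) * Λ) (F b))
    (c : ℝ) (hc : ∀ b ω, c ≤ avs p (M + b * Λ) Λ (F b) ω) (hc0 : 0 ≤ c) (hc1 : c ≤ 1) (B : ℕ) :
    P.real {ω | ∑ b ∈ range B, F b (path ξ ω) ≤ c / 2 * B} ≤ Real.exp (-(c / 7 * B)) := by
  have hF0 : ∀ b ω, 0 ≤ F b ω := fun b ω => by rcases hF b ω with h | h <;> rw [h]; norm_num
  have hF1 : ∀ b ω, F b ω ≤ 1 := fun b ω => by rcases hF b ω with h | h <;> rw [h]; norm_num
  set Φ : (ℕ → Bool) → ℝ := fun ω' => ∏ b ∈ range B, (1 - F b ω' / 2) with hΦ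
  have hΦd : Dep (M + B * Λ) Φ := by
    intro ω1 ω2 hω
    refine Finset.prod_congr rfl fun b hb => ?_
    rw [Finset.mem_range] at hb
    rw [hd b ω1 ω2 fun k hk => hω k (hk.trans_le ?_)]
    have : (b + 1) * Λ ≤ B * Λ := Nat.mul_le_mul_right _ hb
    omega
  have hΦ0 : ∀ ω, 0 ≤ Φ ω := fun ω =>
    Finset.prod_nonneg fun b _ => by linarith [hF1 b ω]
  have h1 : ∫ ω, Φ (path ξ ω) ∂P ≤ (1 - c / 2) ^ B := by
    rw [← hξ.integral_avs hΦd M (B * Λ)]
    refine (integral_mono (hξ.integrable (dep_avs' hΦd (k := M) (l := B * Λ)))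
      (integrable_const ((1 - c / 2) ^ B)) fun ω => ?_).trans ?_
    · exact blocks hξ.p_nonneg hξ.p_le M Λ F hF0 hF1 hd c hc hc1 B (path ξ ω)
    · rw [integral_const, probReal_univ, one_smul]
  have h2 : (1 - c / 2) ^ B ≤ Real.exp (-(c / 2 * B)) := by
    have h3 : 1 - c / 2 ≤ Real.exp (-(c / 2)) := by
      have := Real.add_one_le_exp (-(c / 2))
      linarith
    calc (1 - c / 2) ^ B ≤ (Real.exp (-(c / 2))) ^ B := by
          refine pow_le_pow_left₀ (by linarith) h3 B
      _ = Real.exp (-(c / 2 * B)) := by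
          rw [← Real.exp_nat_mul]
          congr 1
          ring
  set e : ℝ := Real.exp (-(Real.log 2 * (c / 2 * B))) with he
  have h4 : e * P.real {ω | e ≤ Φ (path ξ ω)} ≤ ∫ ω, Φ (path ξ ω) ∂P :=
    mul_meas_ge_le_integral_of_nonneg (Filter.Eventually.of_forall fun ω => hΦ0 _)
      (hξ.integrable hΦd) e
  have h5 : {ω | ∑ b ∈ range B, F b (path ξ ω) ≤ c / 2 * B} ⊆ {ω | e ≤ Φ (path ξ ω)} := by
    intro ω hω
    change ∑ b ∈ range B, F b (path ξ ω) ≤ c / 2 * B at hω
    change e ≤ Φ (path ξ ω)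
    have h6 : Φ (path ξ ω) = Real.exp (-(Real.log 2 * ∑ b ∈ range B, F b (path ξ ω))) := by
      rw [Finset.mul_sum, ← Finset.sum_neg_distrib, Real.exp_sum]
      refine Finset.prod_congr rfl fun b _ => ?_
      rcases hF b (path ξ ω) with h | h <;> rw [h]
      · simp
      · rw [mul_one, Real.exp_neg, Real.exp_log (by norm_num)]
        norm_num
    rw [h6, he]
    apply Real.exp_le_exp.2
    have := mul_le_mul_of_nonneg_left hω (Real.log_nonneg (by norm_num : (1 : ℝ) ≤ 2))
    linarith
  have h7 : P.real {ω | ∑ b ∈ range B, F b (path ξ ω) ≤ c / 2 * B} ≤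
      P.real {ω | e ≤ Φ (path ξ ω)} := measureReal_mono h5
  have he0 : 0 < e := Real.exp_pos _
  have h8 : P.real {ω | e ≤ Φ (path ξ ω)} ≤ Real.exp (-(c / 2 * B)) / e := by
    rw [le_div_iff₀ he0, mul_comm]
    exact h4.trans (h1.trans h2)
  refine h7.trans (h8.trans ?_)
  rw [he, ← Real.exp_sub]
  apply Real.exp_le_exp.2
  have hl := Real.log_two_lt_d9
  have hcB : 0 ≤ c * B := by positivity
  nlinarith

end Pool.Agent.Q167.NS
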