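import Pool.Agent.Q167.NS.C

set_option autoImplicit false

/-!
# Growth of the number of nonzero values
-/

namespace Pool.Agent.Q167.NS

open Finset MeasureTheory ProbabilityTheory

variable {Ω : Type} [MeasurableSpace Ω] {P : Measure Ω} [IsProbabilityMeasure P]
  {ξ : ℕ → Ω → Bool} {p : ℕ → ℝ} {G : PowerSeries (ZMod 2)}

/-- both values of the `k`-th bit have probability at least `c₀ k ^ (-θ)` -/
def Rate (c₀ θ : ℝ) (p : ℕ → ℝ) : Prop :=
  ∀ k : ℕ, 1 ≤ k → c₀ * (k : ℝ) ^ (-θ) ≤ p k ∧ c₀ * (k : ℝ) ^ (-θ) ≤ 1 - p k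

/-- the number of nonzero values in the window `[u, u + w)` -/
noncomputable def X (G : PowerSeries (ZMod 2)) (S : Finset ℕ) (u w : ℕ) (ω : ℕ → Bool) : ℕ :=
  ((Ico u (u + w)).filter fun n => lin G S ω n ≠ 0).card

theorem dep_X (hG : PowerSeries.constantCoeff G = 1) (S : Finset ℕ) (L : ℕ) (hS : ∀ l ∈ S, l ≤ L)
    (u w : ℕ) : Dep (u + w + L) (X G S u w) := by
  intro ω ω' hω
  unfold X
  congr 1
  refine Finset.filter_congr fun t ht => ?_
  rw [Finset.mem_Ico] at ht
  have h1 : lin G S ω t = lin G S ω' t :=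
    dep_lin hG S L hS t ω ω' fun k hk => hω k (by omega)
  rw [h1]

theorem X_flip (hG : PowerSeries.constantCoeff G = 1) (S : Finset ℕ) (L : ℕ)
    (hS : ∀ l ∈ S, l ≤ L) (ω : ℕ → Bool) (u H k : ℕ) (hk : u ≤ k) (hk' : k < u + H)
    (hu : H + L + 1 ≤ u) :
    Y G (half S) ((H + 1) / 2) ω ≤ X G S u (2 * H) (Function.update ω k true) +
      X G S u (2 * H) (Function.update ω k false) := by
  classical
  unfold Y X
  refine le_trans ?_ (Finset.card_union_le _ _)
  refine Finset.card_le_card_of_injOn (fun t => k + 2 * t) ?_ ?_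
  · intro t ht
    obtain ⟨h1, h2⟩ := Finset.mem_filter.1 (Finset.mem_coe.1 ht)
    rw [Finset.mem_range] at h1
    have h3 := lin_flip hG S L hS ω k (k + 2 * t) (by omega) (by omega)
    rw [cf_eq] at h3
    refine Finset.mem_coe.2 (Finset.mem_union.2 ?_)
    change k + 2 * t ∈ _ ∨ k + 2 * t ∈ _
    by_cases h4 : lin G S (Function.update ω k true) (k + 2 * t) = 0
    · right
      refine Finset.mem_filter.2 ⟨Finset.mem_Ico.2 ⟨by omega, by omega⟩, fun h5 => h2 ?_⟩
      rw [h4, h5, zero_add] at h3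
      exact h3.symm
    · left
      exact Finset.mem_filter.2 ⟨Finset.mem_Ico.2 ⟨by omega, by omega⟩, h4⟩
  · intro a _ b _ hab
    simp only at hab
    omega

theorem sum_X_le (S : Finset ℕ) (ω : ℕ → Bool) (M Λ w B N : ℕ) (hw : w ≤ Λ)
    (hN : M + B * Λ ≤ N) : ∑ b ∈ range B, X G S (M + b * Λ) w ω ≤ Y G S N ω := by
  classical
  unfold X Y
  rw [← Finset.card_biUnion]
  · refine Finset.card_le_card fun n hn => ?_
    obtain ⟨b, hb, hn'⟩ := Finset.mem_biUnion.1 hn
    obtain ⟨h1, h2⟩ := Finset.mem_filter.1 hn'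
    rw [Finset.mem_Ico] at h1
    rw [Finset.mem_range] at hb
    refine Finset.mem_filter.2 ⟨Finset.mem_range.2 ?_, h2⟩
    have : (b + 1) * Λ ≤ B * Λ := Nat.mul_le_mul_right _ hb
    have e : (b + 1) * Λ = b * Λ + Λ := by ring
    omega
  · intro a _ b _ hab
    have key : ∀ a b : ℕ, a < b → Disjoint
        ((Ico (M + a * Λ) (M + a * Λ + w)).filter fun n => lin G S ω n ≠ 0)
        ((Ico (M + b * Λ) (M + b * Λ + w)).filter fun n => lin G S ω n ≠ 0) := by
      intro a b hab
      rw [Finset.disjoint_left]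
      intro n h1 h2
      have h3 := Finset.mem_Ico.1 (Finset.mem_filter.1 h1).1
      have h4 := Finset.mem_Ico.1 (Finset.mem_filter.1 h2).1
      have : (a + 1) * Λ ≤ b * Λ := Nat.mul_le_mul_right _ hab
      have e : (a + 1) * Λ = a * Λ + Λ := by ring
      omega
    rcases lt_or_gt_of_ne hab with h | h
    · exact key a b h
    · exact (key b a h).symm

/-- the probability of a good block -/
theorem good_block (hG : PowerSeries.constantCoeff G = 1) (hp0 : ∀ k, 0 ≤ p k)
    (hp1 : ∀ k, p k ≤ 1) (S : Finset ℕ) (L : ℕ) (hS : ∀ l ∈ S, l ≤ L) (u H Λ : ℕ)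
    (hΛ : H ≤ Λ) (hu : H + L + 1 ≤ u) (β : ℝ) (hβ0 : 0 ≤ β)
    (hβ : ∀ k, u ≤ k → k < u + H → β ≤ 2 * p k ∧ β ≤ 2 * (1 - p k)) (ω : ℕ → Bool) :
    (1 - Real.exp (-(β * H))) / 2 ≤ avs p u Λ (fun ω' =>
      if Y G (half S) ((H + 1) / 2) ω' ≤ 2 * X G S u (2 * H) ω' then (1 : ℝ) else 0) ω := by
  classical
  set b : ℕ → ℝ := fun k => if u ≤ k ∧ k < u + H then β else 0 with hb
  have h1 := flip_lower hp0 hp1 u Λ (fun ω' =>
      if Y G (half S) ((H + 1) / 2) ω' ≤ 2 * X G S u (2 * H) ω' then (1 : ℝ) else 0)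
    (fun ω' => by split_ifs <;> norm_num) b
    (fun k => by simp only [hb]; split_ifs <;> linarith)
    (fun k => by
      simp only [hb]
      split_ifs with h
      · exact (hβ k h.1 h.2).1
      · linarith [hp0 k])
    (fun k => by
      simp only [hb]
      split_ifs with h
      · exact (hβ k h.1 h.2).2
      · linarith [hp1 k]) ?_ ω
  · refine le_trans ?_ h1
    have h2 : ∏ i ∈ range Λ, (1 - b (u + i)) ≤ Real.exp (-(β * H)) := by
      have h3 : ∏ i ∈ range Λ, (1 - b (u + i)) ≤ ∏ i ∈ range Λ, Real.exp (-(b (u + i))) := by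
        refine Finset.prod_le_prod (fun i _ => ?_) fun i _ => ?_
        · simp only [hb]
          split_ifs with h
          · have := hβ _ h.1 h.2
            linarith
          · norm_num
        · have := Real.add_one_le_exp (-(b (u + i)))
          linarith
      refine h3.trans (le_of_eq ?_)
      rw [← Real.exp_sum]
      congr 1
      rw [Finset.sum_neg_distrib]
      congr 1
      have h4 : ∀ i ∈ range Λ, b (u + i) = if i < H then β else 0 := by
        intro i _
        simp only [hb]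
        by_cases hi : i < H
        · rw [if_pos hi, if_pos ⟨by omega, by omega⟩]
        · rw [if_neg hi, if_neg (by omega)]
      rw [Finset.sum_congr rfl h4, ← Finset.sum_filter]
      have h5 : (range Λ).filter (fun i => i < H) = range H := by
        ext i
        simp only [Finset.mem_filter, Finset.mem_range]
        omega
      rw [h5, Finset.sum_const, Finset.card_range, nsmul_eq_mul, mul_comm]
    linarith
  · intro k hk ω'
    have hk2 : u ≤ k ∧ k < u + H := by
      by_contra h
      exact hk (by simp only [hb]; rw [if_neg h])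
    have h3 := X_flip hG S L hS ω' u H k hk2.1 hk2.2 hu
    have h4 : ∀ e : Bool, Y G (half S) ((H + 1) / 2) (Function.update ω' k e) =
        Y G (half S) ((H + 1) / 2) ω' := fun e =>
      (dep_Y hG (half S) (L / 2) (half_le hS) ((H + 1) / 2)).update (by omega) ω' e
    rw [h4, h4]
    by_cases ha : Y G (half S) ((H + 1) / 2) ω' ≤ 2 * X G S u (2 * H) (Function.update ω' k true)
    · rw [if_pos ha]
      split_ifs <;> norm_num
    · rw [if_neg ha, if_pos (by omega)]
      norm_num

end Pool.Agent.Q167.NS
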