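import Pool.Agent.Q167.NS.D

set_option autoImplicit false

/-!
# The exponents of the number of nonzero values
-/

namespace Pool.Agent.Q167.NS

open Finset MeasureTheory ProbabilityTheory Filter Topology

variable {Ω : Type} [MeasurableSpace Ω] {P : Measure Ω} [IsProbabilityMeasure P]
  {ξ : ℕ → Ω → Bool} {p : ℕ → ℝ} {G : PowerSeries (ZMod 2)}

/-- at least `c N ^ x` nonzero values below `N`, up to probability `O(N ^ (-A))` for all `A` -/
def GP (P : Measure Ω) (ξ : ℕ → Ω → Bool) (G : PowerSeries (ZMod 2)) (S : Finset ℕ) (x : ℝ) :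
    Prop :=
  ∃ c : ℝ, 0 < c ∧ ∀ A : ℕ, ∃ C : ℝ, 0 ≤ C ∧ ∀ N : ℕ, 1 ≤ N →
    P.real {ω | (Y G S N (path ξ ω) : ℝ) < c * (N : ℝ) ^ x} ≤ C / (N : ℝ) ^ A

omit [IsProbabilityMeasure P] in
theorem GP.mono [IsFiniteMeasure P] {S : Finset ℕ} {x y : ℝ} (h : GP P ξ G S x) (hy : y ≤ x) :
    GP P ξ G S y := by
  obtain ⟨c, hc, h⟩ := h
  refine ⟨c, hc, fun A => ?_⟩
  obtain ⟨C, hC0, hC⟩ := h A
  refine ⟨C, hC0, fun N hN => le_trans (measureReal_mono fun ω hω => ?_) (hC N hN)⟩
  change (Y G S N (path ξ ω) : ℝ) < c * (N : ℝ) ^ y at hω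
  change (Y G S N (path ξ ω) : ℝ) < c * (N : ℝ) ^ x
  have h1 : (1 : ℝ) ≤ N := by exact_mod_cast hN
  have h2 := Real.rpow_le_rpow_of_exponent_le h1 hy
  have h3 := mul_le_mul_of_nonneg_left h2 hc.le
  linarith

/-- a stretched exponential is smaller than every power -/
theorem exp_small (c a : ℝ) (hc : 0 < c) (ha : 0 < a) (A : ℕ) : ∃ C : ℝ, 0 ≤ C ∧ ∀ N : ℕ, 1 ≤ N →
    Real.exp (-(c * (N : ℝ) ^ a)) ≤ C / (N : ℝ) ^ A := by
  obtain ⟨n, hn⟩ := exists_nat_ge ((A : ℝ) / a)
  refine ⟨(n.factorial : ℝ) / c ^ n, by positivity, fun N hN => ?_⟩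
  have hN1 : (1 : ℝ) ≤ N := by exact_mod_cast hN
  have hN0 : (0 : ℝ) < N := by linarith
  set y := c * (N : ℝ) ^ a with hy
  have hy0 : 0 < y := by positivity
  have h1 := Real.pow_div_factorial_le_exp y hy0.le n
  have h2 : Real.exp (-y) ≤ (n.factorial : ℝ) / y ^ n := by
    rw [Real.exp_neg, inv_le_comm₀ (Real.exp_pos _) (by positivity), inv_div]
    exact h1
  refine h2.trans ?_
  rw [hy, mul_pow, ← Real.rpow_natCast ((N : ℝ) ^ a) n, ← Real.rpow_mul hN0.le, ← div_div]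
  refine div_le_div_of_nonneg_left (by positivity) (by positivity) ?_
  rw [← Real.rpow_natCast (N : ℝ) A]
  refine Real.rpow_le_rpow_of_exponent_le hN1 ?_
  rw [div_le_iff₀ ha] at hn
  linarith

theorem Bits.recursion (hξ : Bits P ξ p) (hG : PowerSeries.constantCoeff G = 1) {c₀ θ : ℝ}
    (hc₀ : 0 < c₀) (hθ : 0 < θ) (hθ1 : θ < 1) (hp : Rate c₀ θ p) (S : Finset ℕ) (x : ℝ)
    (hx0 : 0 ≤ x) (hx1 : x ≤ 1) (h : GP P ξ G (half S) x) : GP P ξ G S (1 - θ + θ * x) := by
  obtain ⟨cT, hcT, hT⟩ := h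
  set L : ℕ := S.sup id with hL
  have hS : ∀ l ∈ S, l ≤ L := fun l hl => Finset.le_sup (f := id) hl
  set c1 : ℝ := (1 - Real.exp (-(2 * c₀))) / 2 with hc1
  have hc1' : 0 < c1 ∧ c1 ≤ 1 := by
    have h1 : Real.exp (-(2 * c₀)) < 1 := by
      rw [← Real.exp_zero]
      exact Real.exp_lt_exp.2 (by linarith)
    have h2 := Real.exp_pos (-(2 * c₀))
    constructor <;> simp only [hc1] <;> linarith
  set K : ℝ := (L : ℝ) + 5 with hK
  have hK0 : 5 ≤ K := by
    have : (0 : ℝ) ≤ L := Nat.cast_nonneg _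
    linarith
  set c : ℝ := c1 * cT / (32 * K) with hc
  have hc0 : 0 < c := by
    have := hc1'.1
    positivity
  refine ⟨c, hc0, fun A => ?_⟩
  obtain ⟨A', hA'⟩ := exists_nat_ge ((A : ℝ) / θ)
  obtain ⟨C1, hC10, hC1⟩ := hT A'
  obtain ⟨C2, hC20, hC2⟩ := exp_small (c1 / (28 * K)) (1 - θ) (by
    have := hc1'.1
    positivity) (by linarith) A
  -- large `N`
  have hev : ∀ᶠ N : ℕ in atTop, 16 * K ≤ (N : ℝ) ^ (1 - θ) := by
    have := (tendsto_rpow_atTop (by linarith : 0 < 1 - θ)).comp tendsto_natCast_atTop_atTop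
    exact this.eventually_ge_atTop _
  obtain ⟨N0, hN0⟩ := eventually_atTop.1 hev
  refine ⟨C1 * 2 ^ A' + C2 + (N0 : ℝ) ^ A, by positivity, fun N hN => ?_⟩
  have hN1 : (1 : ℝ) ≤ N := by exact_mod_cast hN
  have hNp : (0 : ℝ) < N := by linarith
  have hNA : (0 : ℝ) < (N : ℝ) ^ A := by positivity
  by_cases hlt : N < N0
  · refine (measureReal_le_one).trans ?_
    rw [le_div_iff₀ hNA, one_mul]
    have : (N : ℝ) ^ A ≤ (N0 : ℝ) ^ A := by
      refine pow_le_pow_left₀ hNp.le ?_ A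
      exact_mod_cast hlt.le
    have h3 : 0 ≤ C1 * 2 ^ A' := by positivity
    linarith
  have hW := hN0 N (not_lt.1 hlt)
  -- parameters
  set z : ℝ := (N : ℝ) ^ θ with hz
  have hz1 : 1 ≤ z := Real.one_le_rpow hN1 hθ.le
  have hzN : z * (N : ℝ) ^ (1 - θ) = N := by
    rw [hz, ← Real.rpow_add hNp, show θ + (1 - θ) = 1 by ring, Real.rpow_one]
  set W : ℝ := (N : ℝ) ^ (1 - θ) with hWdef
  set H : ℕ := ⌈z⌉₊ with hH
  have hH1 : z ≤ H := Nat.le_ceil z
  have hH2 : (H : ℝ) < z + 1 := Nat.ceil_lt_add_one (by linarith)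
  have hH2' : (H : ℝ) ≤ 2 * z := by linarith
  set Λ : ℕ := 2 * H + L + 1 with hΛ
  have hΛr : (Λ : ℝ) ≤ K * z := by
    have h1 : (Λ : ℝ) = 2 * H + L + 1 := by
      rw [hΛ]
      push_cast
      ring
    have h2 : (0 : ℝ) ≤ L := Nat.cast_nonneg _
    have h3 : (L : ℝ) ≤ L * z := le_mul_of_one_le_right h2 hz1
    rw [h1, hK]
    nlinarith
  have hΛ0 : 0 < Λ := by omega
  set M : ℕ := (N + 1) / 2 with hM
  set B : ℕ := (N / 2) / Λ with hB
  have hMB : M + B * Λ ≤ N := by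
    have : B * Λ ≤ N / 2 := Nat.div_mul_le_self _ _
    omega
  have hNge : 16 * K * z ≤ N := by
    rw [← hzN]
    nlinarith
  have hMH : H + L + 1 ≤ M := by
    have h1 : ((H + L + 1 : ℕ) : ℝ) ≤ (N : ℝ) / 2 := by
      push_cast
      have h2 : (0 : ℝ) ≤ L := Nat.cast_nonneg _
      have h3 : (L : ℝ) ≤ L * z := le_mul_of_one_le_right h2 hz1
      rw [hK] at hNge
      nlinarith
    have h2 : (N : ℝ) / 2 ≤ M := by
      have h3 : N ≤ 2 * M := by omega
      have h4 : (N : ℝ) ≤ 2 * M := by exact_mod_cast h3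
      linarith
    exact_mod_cast h1.trans h2
  have hBr : W / (4 * K) ≤ B := by
    have h1 : N / 2 < Λ * (B + 1) := by
      have := Nat.lt_div_mul_add hΛ0 (a := N / 2)
      rw [hB]
      nlinarith [Nat.div_add_mod (N / 2) Λ, Nat.mod_lt (N / 2) hΛ0]
    have h2 : N ≤ 2 * (Λ * (B + 1)) := by omega
    have h3 : (N : ℝ) ≤ 2 * (Λ * (B + 1)) := by exact_mod_cast h2
    have h4 : (N : ℝ) ≤ 2 * (K * z * (B + 1)) := by
      refine h3.trans ?_
      have h5 : (0 : ℝ) ≤ (B : ℝ) + 1 := by positivity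
      have := mul_le_mul_of_nonneg_right hΛr h5
      linarith
    rw [← hzN] at h4
    have h5 : W ≤ 2 * (K * (B + 1)) := by
      have hz0 : 0 < z := by linarith
      have h6 : z * W ≤ z * (2 * (K * (B + 1))) := by linarith
      exact le_of_mul_le_mul_left h6 hz0
    rw [div_le_iff₀ (by linarith)]
    nlinarith
  set h : ℕ := (H + 1) / 2 with hh
  have hh1 : 1 ≤ h := by
    have : 1 ≤ H := by
      rw [hH]
      exact Nat.one_le_ceil_iff.2 (by linarith)
    omega
  have hhr : z / 2 ≤ h := by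
    have h3 : H ≤ 2 * h := by omega
    have h4 : (H : ℝ) ≤ 2 * h := by exact_mod_cast h3
    linarith
  -- the blocks
  classical
  set F : ℕ → (ℕ → Bool) → ℝ := fun b ω' => if b < B then
    (if Y G (half S) h ω' ≤ 2 * X G S (M + b * Λ) (2 * H) ω' then (1 : ℝ) else 0) else 1 with hF
  have hF01 : ∀ b ω, F b ω = 0 ∨ F b ω = 1 := by
    intro b ω
    simp only [hF]
    split_ifs <;> simp
  have hFd : ∀ b, Dep (M + (b + 1) * Λ) (F b) := by
    intro b ω1 ω2 hω
    simp only [hF]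
    have e : (b + 1) * Λ = b * Λ + Λ := by ring
    rw [dep_X hG S L hS (M + b * Λ) (2 * H) ω1 ω2 fun k hk => hω k (by omega),
      dep_Y hG (half S) (L / 2) (half_le hS) h ω1 ω2 fun k hk => hω k (by omega)]
  have hFc : ∀ b ω, c1 ≤ avs p (M + b * Λ) Λ (F b) ω := by
    intro b ω
    by_cases hb : b < B
    · have e : F b = fun ω' => if Y G (half S) h ω' ≤ 2 * X G S (M + b * Λ) (2 * H) ω'
          then (1 : ℝ) else 0 := by
        funext ω'
        simp only [hF]
        rw [if_pos hb]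
      rw [e]
      refine le_trans ?_ (good_block hG hξ.p_nonneg hξ.p_le S L hS (M + b * Λ) H Λ (by omega)
        (by omega) (2 * c₀ * (N : ℝ) ^ (-θ)) (by positivity) ?_ ω)
      · rw [hc1]
        have h1 : 2 * c₀ ≤ 2 * c₀ * (N : ℝ) ^ (-θ) * H := by
          have h2 : (N : ℝ) ^ (-θ) * z = 1 := by
            rw [hz, ← Real.rpow_add hNp]
            simp
          have h3 : (N : ℝ) ^ (-θ) * z ≤ (N : ℝ) ^ (-θ) * H :=
            mul_le_mul_of_nonneg_left hH1 (by positivity)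
          rw [h2] at h3
          nlinarith
        have h2 := Real.exp_le_exp.2 (neg_le_neg h1)
        linarith
      · intro k hk1 hk2
        have hk0 : 1 ≤ k := by omega
        have hkN : k ≤ N := by
          have : (b + 1) * Λ ≤ B * Λ := Nat.mul_le_mul_right _ hb
          have e : (b + 1) * Λ = b * Λ + Λ := by ring
          omega
        have h1 := hp k hk0
        have h2 : (N : ℝ) ^ (-θ) ≤ (k : ℝ) ^ (-θ) := by
          refine Real.rpow_le_rpow_of_nonpos (by exact_mod_cast hk0) (by exact_mod_cast hkN)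
            (by linarith)
        have h3 := mul_le_mul_of_nonneg_left h2 hc₀.le
        constructor <;> linarith [h1.1, h1.2]
    · have e : F b = fun _ => (1 : ℝ) := by
        funext ω'
        simp only [hF]
        rw [if_neg hb]
      rw [e, avs_const]
      exact hc1'.2
  have hfew := hξ.few M Λ F hF01 hFd c1 hFc hc1'.1.le hc1'.2 B
  -- the inclusion of events
  have hsub : {ω | (Y G S N (path ξ ω) : ℝ) < c * (N : ℝ) ^ (1 - θ + θ * x)} ⊆
      {ω | ∑ b ∈ range B, F b (path ξ ω) ≤ c1 / 2 * B} ∪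
      {ω | (Y G (half S) h (path ξ ω) : ℝ) < cT * (h : ℝ) ^ x} := by
    intro ω hω
    change (Y G S N (path ξ ω) : ℝ) < c * (N : ℝ) ^ (1 - θ + θ * x) at hω
    by_contra hno
    rw [Set.mem_union, not_or] at hno
    obtain ⟨hn1, hn2⟩ := hno
    have hn1' : c1 / 2 * B < ∑ b ∈ range B, F b (path ξ ω) := not_le.1 hn1
    have hn2' : cT * (h : ℝ) ^ x ≤ (Y G (half S) h (path ξ ω) : ℝ) := not_lt.1 hn2
    have h1 := sum_X_le (G := G) S (path ξ ω) M Λ (2 * H) B N (by omega) hMB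
    have h1r : (∑ b ∈ range B, (X G S (M + b * Λ) (2 * H) (path ξ ω) : ℝ)) ≤
        Y G S N (path ξ ω) := by exact_mod_cast h1
    set y : ℝ := (Y G (half S) h (path ξ ω) : ℝ) with hy
    have hy0 : 0 ≤ y := Nat.cast_nonneg _
    have h2 : ∀ b ∈ range B, F b (path ξ ω) * (y / 2) ≤
        (X G S (M + b * Λ) (2 * H) (path ξ ω) : ℝ) := by
      intro b hb
      rw [Finset.mem_range] at hb
      simp only [hF]
      rw [if_pos hb]
      split_ifs with h3
      · have h4 : y ≤ 2 * (X G S (M + b * Λ) (2 * H) (path ξ ω) : ℝ) := by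
          rw [hy]
          exact_mod_cast h3
        linarith
      · rw [zero_mul]
        exact Nat.cast_nonneg _
    have h3 := Finset.sum_le_sum h2
    rw [← Finset.sum_mul] at h3
    have h4 : c1 / 2 * B * (y / 2) ≤ Y G S N (path ξ ω) :=
      (mul_le_mul_of_nonneg_right hn1'.le (by positivity)).trans (h3.trans h1r)
    have h5 : (N : ℝ) ^ (θ * x) / 2 ≤ (h : ℝ) ^ x := by
      have h6 : (z / 2) ^ x ≤ (h : ℝ) ^ x := Real.rpow_le_rpow (by positivity) hhr hx0
      refine le_trans ?_ h6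
      rw [Real.div_rpow (by linarith) (by norm_num), hz, ← Real.rpow_mul hNp.le]
      refine div_le_div_of_nonneg_left (by positivity) (by positivity) ?_
      calc (2 : ℝ) ^ x ≤ 2 ^ (1 : ℝ) := Real.rpow_le_rpow_of_exponent_le (by norm_num) hx1
        _ = 2 := Real.rpow_one _
    have h6 : (N : ℝ) ^ (1 - θ + θ * x) = W * (N : ℝ) ^ (θ * x) := by
      rw [Real.rpow_add hNp]
    rw [h6] at hω
    have h7 : c * (W * (N : ℝ) ^ (θ * x)) ≤ c1 / 2 * B * (y / 2) := by
      have h8 : cT * ((N : ℝ) ^ (θ * x) / 2) ≤ y :=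
        (mul_le_mul_of_nonneg_left h5 hcT.le).trans hn2'
      have h9 : c * (W * (N : ℝ) ^ (θ * x)) =
          c1 / 2 * (W / (4 * K)) * (cT * ((N : ℝ) ^ (θ * x) / 2) / 2) := by
        rw [hc]
        field_simp
        ring
      rw [h9]
      have h10 := hc1'.1
      have hW0 : 0 < W := by positivity
      gcongr
    linarith
  refine (measureReal_mono hsub).trans ((measureReal_union_le _ _).trans ?_)
  have e1 : Real.exp (-(c1 / 7 * B)) ≤ C2 / (N : ℝ) ^ A := by
    refine le_trans (Real.exp_le_exp.2 ?_) (hC2 N hN)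
    have h1 := mul_le_mul_of_nonneg_left hBr (by linarith [hc1'.1] : 0 ≤ c1 / 7)
    have h2 : c1 / 7 * (W / (4 * K)) = c1 / (28 * K) * W := by
      field_simp
      ring
    rw [h2] at h1
    linarith
  have e2 : P.real {ω | (Y G (half S) h (path ξ ω) : ℝ) < cT * (h : ℝ) ^ x} ≤
      C1 * 2 ^ A' / (N : ℝ) ^ A := by
    refine (hC1 h hh1).trans ?_
    have h1 : (z / 2) ^ A' ≤ (h : ℝ) ^ A' := pow_le_pow_left₀ (by positivity) hhr A'
    have h2 : (N : ℝ) ^ A ≤ z ^ A' := by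
      rw [hz, ← Real.rpow_natCast, ← Real.rpow_natCast ((N : ℝ) ^ θ), ← Real.rpow_mul hNp.le]
      refine Real.rpow_le_rpow_of_exponent_le hN1 ?_
      rw [div_le_iff₀ hθ] at hA'
      linarith
    have h3 : (N : ℝ) ^ A / 2 ^ A' ≤ (h : ℝ) ^ A' := by
      rw [div_pow] at h1
      refine le_trans ?_ h1
      gcongr
    calc C1 / (h : ℝ) ^ A' ≤ C1 / ((N : ℝ) ^ A / 2 ^ A') :=
          div_le_div_of_nonneg_left hC10 (by positivity) h3
      _ = C1 * 2 ^ A' / (N : ℝ) ^ A := by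
          field_simp
  have e3 : (C1 * 2 ^ A' + C2 + (N0 : ℝ) ^ A) / (N : ℝ) ^ A =
      C2 / (N : ℝ) ^ A + C1 * 2 ^ A' / (N : ℝ) ^ A + (N0 : ℝ) ^ A / (N : ℝ) ^ A := by
    ring
  rw [e3]
  have e4 : 0 ≤ (N0 : ℝ) ^ A / (N : ℝ) ^ A := by positivity
  linarith

/-- all normalised linear forms have many nonzero values -/
theorem Bits.growth (hξ : Bits P ξ p) (hG : PowerSeries.constantCoeff G = 1) {c₀ θ : ℝ}
    (hc₀ : 0 < c₀) (hθ : 0 < θ) (hθ1 : θ < 1) (hp : Rate c₀ θ p) (j : ℕ) (L : ℕ) (S : Finset ℕ)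
    (hS : ∀ l ∈ S, l ≤ L) (h0 : 0 ∈ S) : GP P ξ G S (1 - θ ^ j) := by
  have hx0 : ∀ j : ℕ, 0 ≤ 1 - θ ^ j := fun j => by
    have := pow_le_one₀ hθ.le hθ1.le (n := j)
    linarith
  have hx1 : ∀ j : ℕ, 1 - θ ^ j ≤ 1 := fun j => by
    have : 0 < θ ^ j := by positivity
    linarith
  have hstep : ∀ j : ℕ, 1 - θ + θ * (1 - θ ^ j) = 1 - θ ^ (j + 1) := fun j => by ring
  induction L using Nat.strong_induction_on generalizing S j with
  | _ L ih =>
    rcases Nat.eq_zero_or_pos L with hL | hL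
    · subst hL
      have hS0 : S = {0} := by
        ext l
        rw [Finset.mem_singleton]
        constructor
        · intro h
          have := hS l h
          omega
        · rintro rfl
          exact h0
      have hhalf : half ({0} : Finset ℕ) = {0} := by decide
      subst hS0
      induction j with
      | zero =>
        refine ⟨1, one_pos, fun A => ⟨0, le_rfl, fun N hN => ?_⟩⟩
        have : {ω | (Y G {0} N (path ξ ω) : ℝ) < 1 * (N : ℝ) ^ (1 - θ ^ 0)} = ∅ := by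
          ext ω
          rw [Set.mem_empty_iff_false, iff_false]
          intro h
          change (Y G {0} N (path ξ ω) : ℝ) < 1 * (N : ℝ) ^ (1 - θ ^ 0) at h
          rw [pow_zero, sub_self, Real.rpow_zero, one_mul] at h
          have h1 : Y G {0} N (path ξ ω) < 1 := by exact_mod_cast h
          have h2 : 0 < Y G {0} N (path ξ ω) := by
            unfold Y
            refine Finset.card_pos.2 ⟨0, Finset.mem_filter.2 ⟨Finset.mem_range.2 hN, ?_⟩⟩
            unfold lin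
            rw [Finset.sum_singleton, Nat.add_zero, rr_zero hG]
            exact one_ne_zero
          omega
        rw [this, measureReal_empty, zero_div]
      | succ j ihj =>
        rw [← hstep j]
        refine hξ.recursion hG hc₀ hθ hθ1 hp {0} _ (hx0 j) (hx1 j) ?_
        rw [hhalf]
        exact ihj
    · have h1 := ih (L / 2) (by omega) j (half S) (half_le hS) (zero_mem_half h0)
      have h2 := hξ.recursion hG hc₀ hθ hθ1 hp S _ (hx0 j) (hx1 j) h1
      rw [hstep j] at h2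
      refine h2.mono ?_
      have : θ ^ (j + 1) ≤ θ ^ j := pow_le_pow_of_le_one hθ.le hθ1.le (by omega)
      linarith

end Pool.Agent.Q167.NS
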