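import Pool.Agent.Q167.NS.E

set_option autoImplicit false

/-!
# Pairs of places
-/

namespace Pool.Agent.Q167.NS

open Finset MeasureTheory ProbabilityTheory Filter Topology

variable {Ω : Type} [MeasurableSpace Ω] {P : Measure Ω} [IsProbabilityMeasure P]
  {ξ : ℕ → Ω → Bool} {p : ℕ → ℝ} {G : PowerSeries (ZMod 2)}

/-- the sign of the linear form -/
noncomputable def sn (G : PowerSeries (ZMod 2)) (S : Finset ℕ) (n : ℕ) (ω : ℕ → Bool) : ℝ :=
  sg (lin G S ω n)

theorem abs_sn (S : Finset ℕ) (n : ℕ) (ω : ℕ → Bool) : |sn G S n ω| = 1 := abs_sg _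

theorem dep_sn (hG : PowerSeries.constantCoeff G = 1) (S : Finset ℕ) (L : ℕ) (hS : ∀ l ∈ S, l ≤ L)
    (n : ℕ) : Dep (n + L + 1) (sn G S n) := fun ω ω' h => by
  have h1 : lin G S ω n = lin G S ω' n := dep_lin hG S L hS n ω ω' h
  unfold sn
  rw [h1]

theorem abs_factor (p β : ℝ) (x : ZMod 2) (h1 : β ≤ 2 * p) (h2 : β ≤ 2 * (1 - p)) (h0 : 0 ≤ p)
    (h0' : p ≤ 1) : |1 - p + p * sg x| ≤ Real.exp (-(if x ≠ 0 then β else 0)) := by
  unfold sg
  by_cases hx : x = 0
  · rw [if_pos hx, if_neg (by simpa using hx)]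
    simp
  · rw [if_neg hx, if_pos hx]
    have h3 := Real.add_one_le_exp (-β)
    rw [abs_le]
    constructor <;> linarith

theorem bias_sn (hG : PowerSeries.constantCoeff G = 1) (hp0 : ∀ k, 0 ≤ p k) (hp1 : ∀ k, p k ≤ 1)
    (S : Finset ℕ) (L : ℕ) (hS : ∀ l ∈ S, l ≤ L) (v Γ : ℕ) (hv : Γ + 1 ≤ v)
    (hv2 : v + L < 2 * (v - Γ)) (β : ℝ)
    (hβ : ∀ k, v - Γ ≤ k → k ≤ v → β ≤ 2 * p k ∧ β ≤ 2 * (1 - p k)) (hβ0 : 0 ≤ β)
    (ω : ℕ → Bool) :
    |avs p (v - Γ) (Γ + 1) (sn G S v) ω| ≤ Real.exp (-(β * Y G (half S) (Γ / 2) ω)) := by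
  classical
  set m := v - Γ with hm
  have h1 := bias (p := p) m m (Γ + 1) le_rfl (sn G S v) (fun ω => (abs_sn S v ω).le)
    (fun k ω' => sg (cf G S ω' v (max k m))) (fun k ω1 ω2 h => by
      have := dep_cf hG S L hS v (max k m) m (by omega) (le_max_right _ _) ω1 ω2 h
      simp only at this ⊢
      rw [this])
    (fun k hk hk' ω' => by
      rw [max_eq_left hk]
      unfold sn
      rw [lin_flip hG S L hS ω' k v (by omega) (by omega), sg_add, mul_comm]) ω
  refine h1.trans ?_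
  -- the places `v - 2 t`
  set g : ℕ → ℝ := fun i => if ∃ t, t < Γ / 2 ∧ i + 2 * t = Γ ∧ lin G (half S) ω t ≠ 0
    then β else 0 with hg
  have h2 : ∏ i ∈ range (Γ + 1), |1 - p (m + i) + p (m + i) * sg (cf G S ω v (max (m + i) m))| ≤
      ∏ i ∈ range (Γ + 1), Real.exp (-(g i)) := by
    refine Finset.prod_le_prod (fun i _ => abs_nonneg _) fun i hi => ?_
    rw [Finset.mem_range] at hi
    rw [max_eq_left (by omega : m ≤ m + i)]
    have hb := hβ (m + i) (by omega) (by omega)
    have h3 := abs_factor (p (m + i)) β (cf G S ω v (m + i)) hb.1 hb.2 (hp0 _) (hp1 _)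
    refine h3.trans (Real.exp_le_exp.2 (neg_le_neg ?_))
    simp only [hg]
    split_ifs with h4 h5 h5
    · exact le_rfl
    · exfalso
      obtain ⟨t, ht, hi2, ht0⟩ := h4
      apply h5
      have e : v = (m + i) + 2 * t := by omega
      have e2 := cf_eq (G := G) S ω (m + i) t
      rw [← e] at e2
      rw [e2]
      exact ht0
    · exact hβ0
    · exact le_rfl
  refine h2.trans ?_
  rw [← Real.exp_sum]
  refine Real.exp_le_exp.2 ?_
  rw [Finset.sum_neg_distrib]
  refine neg_le_neg ?_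
  simp only [hg]
  rw [← Finset.sum_filter, Finset.sum_const, nsmul_eq_mul, mul_comm]
  refine mul_le_mul_of_nonneg_right ?_ hβ0
  have h3 : Y G (half S) (Γ / 2) ω ≤ ((range (Γ + 1)).filter fun i =>
      ∃ t, t < Γ / 2 ∧ i + 2 * t = Γ ∧ lin G (half S) ω t ≠ 0).card := by
    unfold Y
    refine Finset.card_le_card_of_injOn (fun t => Γ - 2 * t) ?_ ?_
    · intro t ht
      obtain ⟨h1, h2⟩ := Finset.mem_filter.1 (Finset.mem_coe.1 ht)
      rw [Finset.mem_range] at h1
      refine Finset.mem_coe.2 (Finset.mem_filter.2 ⟨Finset.mem_range.2 ?_, t, h1, ?_, h2⟩)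
      · change Γ - 2 * t < Γ + 1
        omega
      · change Γ - 2 * t + 2 * t = Γ
        omega
    · intro a ha b hb hab
      have ha1 := Finset.mem_range.1 (Finset.mem_filter.1 (Finset.mem_coe.1 ha)).1
      have hb1 := Finset.mem_range.1 (Finset.mem_filter.1 (Finset.mem_coe.1 hb)).1
      simp only at hab
      omega
  exact_mod_cast h3

theorem Bits.pair (hξ : Bits P ξ p) (hG : PowerSeries.constantCoeff G = 1)
    (S : Finset ℕ) (L : ℕ) (hS : ∀ l ∈ S, l ≤ L) (u v Γ : ℕ) (huv : u + 2 * Γ + L + 1 ≤ v)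
    (β : ℝ) (hβ : ∀ k, 1 ≤ k → k ≤ v → β ≤ 2 * p k ∧ β ≤ 2 * (1 - p k)) (hβ0 : 0 ≤ β)
    (y : ℝ) :
    |∫ ω, sn G S u (path ξ ω) * sn G S v (path ξ ω) ∂P| ≤
      P.real {ω | (Y G (half S) (Γ / 2) (path ξ ω) : ℝ) < y} + Real.exp (-(β * y)) := by
  classical
  have hdu := dep_sn hG S L hS u
  have hdv := dep_sn hG S L hS v
  have hd : Dep (v + L + 1) (fun ω => sn G S u ω * sn G S v ω) := fun ω ω' h => by
    simp only
    rw [hdu ω ω' fun k hk => h k (by omega), hdv ω ω' h]
  rw [← hξ.integral_avs hd (v - Γ) (Γ + 1)]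
  refine (abs_integral_le_integral_abs).trans ?_
  have hY : Dep (Γ / 2 + L / 2) (Y G (half S) (Γ / 2)) := dep_Y hG (half S) (L / 2) (half_le hS) _
  have hE : Dep (Γ / 2 + L / 2) (fun ω => Real.exp (-(β * Y G (half S) (Γ / 2) ω))) :=
    fun ω ω' h => by
      simp only
      rw [hY ω ω' h]
  have hI : Dep (Γ / 2 + L / 2) (fun ω => (if (Y G (half S) (Γ / 2) ω : ℝ) < y then (1 : ℝ) else 0)
      + Real.exp (-(β * y))) := fun ω ω' h => by
    simp only
    rw [hY ω ω' h]
  have h1 : ∫ ω, |avs p (v - Γ) (Γ + 1) (fun ω => sn G S u ω * sn G S v ω) (path ξ ω)| ∂P ≤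
      ∫ ω, ((if (Y G (half S) (Γ / 2) (path ξ ω) : ℝ) < y then (1 : ℝ) else 0)
      + Real.exp (-(β * y))) ∂P := by
    refine integral_mono (hξ.integrable (dep_avs' hd (k := v - Γ) (l := Γ + 1))).abs
      (hξ.integrable hI) fun ω => ?_
    simp only
    rw [avs_mul _ _ (sn G S u) _ (hdu.mono (by omega)), abs_mul, abs_sn, one_mul]
    refine (bias_sn hG hξ.p_nonneg hξ.p_le S L hS v Γ (by omega) (by omega) β
      (fun k hk hk' => hβ k (by omega) hk') hβ0 (path ξ ω)).trans ?_
    split_ifs with h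
    · have h2 : Real.exp (-(β * Y G (half S) (Γ / 2) (path ξ ω))) ≤ 1 := by
        rw [← Real.exp_zero]
        refine Real.exp_le_exp.2 ?_
        have : 0 ≤ β * Y G (half S) (Γ / 2) (path ξ ω) := by positivity
        linarith
      have h3 := Real.exp_pos (-(β * y))
      linarith
    · rw [zero_add]
      refine Real.exp_le_exp.2 (neg_le_neg ?_)
      exact mul_le_mul_of_nonneg_left (not_lt.1 h) hβ0
  refine h1.trans ?_
  have hms : MeasurableSet {ω | (Y G (half S) (Γ / 2) (path ξ ω) : ℝ) < y} := by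
    have h2 : Measurable fun ω => (Y G (half S) (Γ / 2) (path ξ ω) : ℝ) :=
      measurable_from_nat.comp (hξ.measurable hY)
    exact measurableSet_lt h2 measurable_const
  have e1 : (fun ω => (if (Y G (half S) (Γ / 2) (path ξ ω) : ℝ) < y then (1 : ℝ) else 0)) =
      Set.indicator {ω | (Y G (half S) (Γ / 2) (path ξ ω) : ℝ) < y} (fun _ => (1 : ℝ)) := by
    funext ω
    rw [Set.indicator_apply]
    rfl
  rw [integral_add _ (integrable_const _), integral_const, probReal_univ, one_smul, e1,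
    integral_indicator_const _ hms, smul_eq_mul, mul_one]
  rw [e1]
  exact (integrable_const (1 : ℝ)).indicator hms

/-- the second moment of a sum over places -/
theorem Bits.second (hξ : Bits P ξ p) (hG : PowerSeries.constantCoeff G = 1)
    (S : Finset ℕ) (L : ℕ) (hS : ∀ l ∈ S, l ≤ L) (n : ℕ → ℕ) (hn : StrictMono n) (J Γ : ℕ)
    (β : ℝ) (hβ : ∀ k, 1 ≤ k → k ≤ n J → β ≤ 2 * p k ∧ β ≤ 2 * (1 - p k)) (hβ0 : 0 ≤ β)
    (y : ℝ) :
    ∫ ω, (∑ j ∈ range J, sn G S (n j) (path ξ ω)) ^ 2 ∂P ≤ J * (4 * Γ + 2 * L + 1) +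
      (J : ℝ) ^ 2 * (P.real {ω | (Y G (half S) (Γ / 2) (path ξ ω) : ℝ) < y} +
        Real.exp (-(β * y))) := by
  classical
  set δ := P.real {ω | (Y G (half S) (Γ / 2) (path ξ ω) : ℝ) < y} + Real.exp (-(β * y)) with hδ
  have hδ0 : 0 ≤ δ := add_nonneg measureReal_nonneg (Real.exp_pos _).le
  have hint : ∀ i j, Integrable (fun ω => sn G S (n i) (path ξ ω) * sn G S (n j) (path ξ ω)) P := by
    intro i j
    have hd : Dep (n i + n j + L + 1) (fun ω => sn G S (n i) ω * sn G S (n j) ω) :=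
      fun ω ω' h => by
        simp only
        rw [dep_sn hG S L hS (n i) ω ω' fun k hk => h k (by omega),
          dep_sn hG S L hS (n j) ω ω' fun k hk => h k (by omega)]
    exact hξ.integrable hd
  have h1 : ∫ ω, (∑ j ∈ range J, sn G S (n j) (path ξ ω)) ^ 2 ∂P =
      ∑ i ∈ range J, ∑ j ∈ range J,
        ∫ ω, sn G S (n i) (path ξ ω) * sn G S (n j) (path ξ ω) ∂P := by
    have e : ∀ ω, (∑ j ∈ range J, sn G S (n j) (path ξ ω)) ^ 2 =
        ∑ i ∈ range J, ∑ j ∈ range J, sn G S (n i) (path ξ ω) * sn G S (n j) (path ξ ω) := by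
      intro ω
      rw [sq, Finset.sum_mul_sum]
    rw [integral_congr_ae (Eventually.of_forall e), integral_finsetSum]
    · refine Finset.sum_congr rfl fun i _ => ?_
      rw [integral_finsetSum]
      exact fun j _ => hint i j
    · exact fun i _ => integrable_finsetSum _ fun j _ => hint i j
  rw [h1]
  have hle : ∀ i j : ℕ, i ≤ j → j - i ≤ n j - n i := by
    intro i j hij
    induction j, hij using Nat.le_induction with
    | base => simp
    | succ j hij ih =>
      have h2 := hn (Nat.lt_succ_self j)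
      have h3 := hn.monotone hij
      simp only [Nat.succ_eq_add_one] at h2
      omega
  have hfar : ∀ i j : ℕ, i < J → j < J → i + (2 * Γ + L) < j →
      |∫ ω, sn G S (n i) (path ξ ω) * sn G S (n j) (path ξ ω) ∂P| ≤ δ := by
    intro i j _ hj hij
    have h2 := hle i j (by omega)
    have h3 := hn (by omega : i < j)
    refine hξ.pair hG S L hS (n i) (n j) Γ (by omega) β (fun k hk hk' => hβ k hk ?_) hβ0 y
    exact hk'.trans (hn.monotone hj.le)
  have h2 : ∀ i ∈ range J, ∀ j ∈ range J,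
      ∫ ω, sn G S (n i) (path ξ ω) * sn G S (n j) (path ξ ω) ∂P ≤
      (if j ∈ Icc (i - (2 * Γ + L)) (i + (2 * Γ + L)) then (1 : ℝ) else 0) + δ := by
    intro i hi j hj
    rw [Finset.mem_range] at hi hj
    split_ifs with h
    · have h3 : ∫ ω, sn G S (n i) (path ξ ω) * sn G S (n j) (path ξ ω) ∂P ≤ ∫ _, (1 : ℝ) ∂P := by
        refine integral_mono (hint i j) (integrable_const _) fun ω => ?_
        simp only
        refine (le_abs_self _).trans ?_
        rw [abs_mul, abs_sn, abs_sn, one_mul]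
      rw [integral_const, probReal_univ, one_smul] at h3
      linarith
    · rw [zero_add]
      rw [Finset.mem_Icc, not_and_or, not_le, not_le] at h
      rcases h with h | h
      · have h3 := hfar j i hj hi (by omega)
        have e : ∀ ω, sn G S (n i) (path ξ ω) * sn G S (n j) (path ξ ω) =
            sn G S (n j) (path ξ ω) * sn G S (n i) (path ξ ω) := fun ω => mul_comm _ _
        rw [integral_congr_ae (Eventually.of_forall e)]
        exact (le_abs_self _).trans h3
      · exact (le_abs_self _).trans (hfar i j hi hj h)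
  have h3 : ∀ i ∈ range J, ∑ j ∈ range J,
      ∫ ω, sn G S (n i) (path ξ ω) * sn G S (n j) (path ξ ω) ∂P ≤
      (4 * Γ + 2 * L + 1) + J * δ := by
    intro i hi
    refine (Finset.sum_le_sum (h2 i hi)).trans ?_
    rw [Finset.sum_add_distrib, Finset.sum_const, Finset.card_range, nsmul_eq_mul,
      ← Finset.sum_filter, Finset.sum_const, nsmul_eq_mul, mul_one]
    have h4 : ((range J).filter fun j => j ∈ Icc (i - (2 * Γ + L)) (i + (2 * Γ + L))).card ≤
        4 * Γ + 2 * L + 1 := by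
      have h5 : (range J).filter (fun j => j ∈ Icc (i - (2 * Γ + L)) (i + (2 * Γ + L))) ⊆
          Icc (i - (2 * Γ + L)) (i + (2 * Γ + L)) := fun j hj => (Finset.mem_filter.1 hj).2
      refine (Finset.card_le_card h5).trans ?_
      rw [Nat.card_Icc]
      omega
    have h5 : (((range J).filter fun j => j ∈ Icc (i - (2 * Γ + L)) (i + (2 * Γ + L))).card : ℝ) ≤
        4 * Γ + 2 * L + 1 := by exact_mod_cast h4
    linarith
  refine (Finset.sum_le_sum h3).trans ?_
  rw [Finset.sum_const, Finset.card_range, nsmul_eq_mul]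
  exact le_of_eq (by ring)

end Pool.Agent.Q167.NS
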