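import Pool.Agent.Q167.NS.F

set_option autoImplicit false

/-!
# Almost sure convergence
-/

namespace Pool.Agent.Q167.NS

open Finset MeasureTheory ProbabilityTheory Filter Topology

section avg

/-- averages that tend to zero along the `q`-th powers tend to zero -/
theorem avg_of_pow (f : ℕ → ℝ) (hf : ∀ j, |f j| ≤ 1) (q : ℕ) (hq : 1 ≤ q)
    (h : Tendsto (fun i : ℕ => (∑ j ∈ range (i ^ q), f j) / ((i ^ q : ℕ) : ℝ)) atTop (𝓝 0)) :
    Tendsto (fun J : ℕ => (∑ j ∈ range J, f j) / (J : ℝ)) atTop (𝓝 0) := by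
  have hr : Tendsto (fun i : ℕ => (1 + 1 / ((i : ℝ) + 1)) ^ q) atTop (𝓝 1) := by
    have h1 : Tendsto (fun i : ℕ => 1 + 1 / ((i : ℝ) + 1)) atTop (𝓝 (1 + 0)) :=
      tendsto_const_nhds.add tendsto_one_div_add_atTop_nhds_zero_nat
    have h2 := h1.pow q
    simpa using h2
  rw [Metric.tendsto_atTop] at h hr ⊢
  intro ε hε
  obtain ⟨i1, h1⟩ := h (ε / 2) (by linarith)
  obtain ⟨i2, h2⟩ := hr (ε / 2) (by linarith)
  set i0 := i1 + i2 + 1 with hi0
  refine ⟨i0 ^ q, fun J hJ => ?_⟩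
  classical
  set i := Nat.findGreatest (fun i => i ^ q ≤ J) J with hi
  have hJi : ∀ i : ℕ, i ^ q ≤ J → i ≤ J := fun i hi =>
    (Nat.le_self_pow (by omega) i).trans hi
  have ha : i ^ q ≤ J := Nat.findGreatest_spec (P := fun i => i ^ q ≤ J) (hJi i0 hJ) hJ
  have hb : i0 ≤ i := Nat.le_findGreatest (hJi i0 hJ) hJ
  have hc : J < (i + 1) ^ q := by
    by_contra hno
    rw [not_lt] at hno
    have := Nat.le_findGreatest (hJi _ hno) hno (P := fun i => i ^ q ≤ J)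
    rw [← hi] at this
    omega
  have hip : 0 < i := by omega
  have hiq : (0 : ℝ) < ((i ^ q : ℕ) : ℝ) := by positivity
  have hJr : ((i ^ q : ℕ) : ℝ) ≤ J := by exact_mod_cast ha
  have hJ0 : (0 : ℝ) < J := by linarith
  have h3 := h1 i (by omega)
  have h4 := h2 (i - 1) (by omega)
  rw [Real.dist_eq, sub_zero] at h3 ⊢
  rw [Real.dist_eq] at h4
  have hi1 : ((i - 1 : ℕ) : ℝ) + 1 = i := by
    have : ((i - 1 + 1 : ℕ) : ℝ) = i := by rw [Nat.sub_add_cancel hip]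
    exact_mod_cast this
  rw [hi1] at h4
  have h5 := (abs_lt.1 h4).2
  have hsplit : |∑ j ∈ range J, f j| ≤ |∑ j ∈ range (i ^ q), f j| + (J - ((i ^ q : ℕ) : ℝ)) := by
    have e : ∑ j ∈ range J, f j = ∑ j ∈ range (i ^ q), f j + ∑ j ∈ Ico (i ^ q) J, f j := by
      rw [Finset.sum_range_add_sum_Ico _ ha]
    rw [e]
    refine (abs_add_le _ _).trans (add_le_add le_rfl ?_)
    refine (Finset.abs_sum_le_sum_abs _ _).trans ((Finset.sum_le_sum fun j _ => hf j).trans ?_)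
    rw [Finset.sum_const, Nat.card_Ico, nsmul_eq_mul, mul_one, Nat.cast_sub ha]
  have h6 : (J : ℝ) ≤ ((i ^ q : ℕ) : ℝ) * (1 + 1 / (i : ℝ)) ^ q := by
    have h7 : (J : ℝ) ≤ (((i + 1) ^ q : ℕ) : ℝ) := by exact_mod_cast hc.le
    refine h7.trans (le_of_eq ?_)
    push_cast
    rw [← mul_pow]
    congr 1
    have : (0 : ℝ) < i := by exact_mod_cast hip
    field_simp
  rw [abs_div, abs_of_pos hJ0, div_lt_iff₀ hJ0]
  rw [abs_div, abs_of_pos hiq, div_lt_iff₀ hiq] at h3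
  have h8 : (J : ℝ) - ((i ^ q : ℕ) : ℝ) < ε / 2 * ((i ^ q : ℕ) : ℝ) := by
    have := mul_lt_mul_of_pos_left h5 hiq
    nlinarith
  have h9 : ε / 2 * ((i ^ q : ℕ) : ℝ) ≤ ε / 2 * J := mul_le_mul_of_nonneg_left hJr (by linarith)
  linarith

variable {Ω : Type} [MeasurableSpace Ω] {μ : Measure Ω}

theorem ae_tendsto_zero {f : ℕ → Ω → ℝ} (hm : ∀ j, Measurable (f j)) (h0 : ∀ j ω, 0 ≤ f j ω)
    (hi : ∀ j, Integrable (f j) μ) (u : ℕ → ℝ) (hu : Summable u)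
    (h : ∀ j, ∫ ω, f j ω ∂μ ≤ u j) : ∀ᵐ ω ∂μ, Tendsto (fun j => f j ω) atTop (𝓝 0) := by
  have h1 : ∫⁻ ω, ∑' j, ENNReal.ofReal (f j ω) ∂μ ≠ ⊤ := by
    rw [lintegral_tsum fun j => (hm j).ennreal_ofReal.aemeasurable]
    have h2 : ∀ j, ∫⁻ ω, ENNReal.ofReal (f j ω) ∂μ ≤ ENNReal.ofReal (u j) := by
      intro j
      rw [← ofReal_integral_eq_lintegral_ofReal (hi j) (Eventually.of_forall (h0 j))]
      exact ENNReal.ofReal_le_ofReal (h j)
    have hu0 : ∀ j, 0 ≤ u j := fun j => (integral_nonneg (h0 j)).trans (h j)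
    have h3 : ∑' j, ENNReal.ofReal (u j) ≠ ⊤ := by
      rw [← ENNReal.ofReal_tsum_of_nonneg hu0 hu]
      exact ENNReal.ofReal_ne_top
    exact ne_top_of_le_ne_top h3 (ENNReal.tsum_le_tsum h2)
  have h2 := ae_lt_top (Measurable.tsum fun j => (hm j).ennreal_ofReal) h1
  filter_upwards [h2] with ω hω
  have h3 := ENNReal.tendsto_atTop_zero_of_tsum_ne_top hω.ne
  have h4 := (ENNReal.tendsto_toReal (ENNReal.zero_ne_top)).comp h3
  rw [ENNReal.toReal_zero] at h4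
  refine h4.congr fun j => ?_
  exact ENNReal.toReal_ofReal (h0 j ω)

theorem ae_avg [IsProbabilityMeasure μ] (f : ℕ → Ω → ℝ) (hm : ∀ j, Measurable (f j))
    (hf : ∀ j ω, |f j ω| ≤ 1) (g C : ℝ) (hg : g < 1)
    (h : ∀ J : ℕ, 1 ≤ J → ∫ ω, (∑ j ∈ range J, f j ω) ^ 2 ∂μ ≤ C * (J : ℝ) ^ (1 + g)) :
    ∀ᵐ ω ∂μ, Tendsto (fun J : ℕ => (∑ j ∈ range J, f j ω) / (J : ℝ)) atTop (𝓝 0) := by
  obtain ⟨q, hq⟩ := exists_nat_ge (2 / (1 - g))
  have hg' : 0 < 1 - g := by linarith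
  have hq1 : 1 ≤ q := by
    by_contra hno
    have : q = 0 := by omega
    rw [this, Nat.cast_zero] at hq
    have : 0 < 2 / (1 - g) := by positivity
    linarith
  have hmS : ∀ J, Measurable fun ω => (∑ j ∈ range J, f j ω) := fun J =>
    Finset.measurable_fun_sum _ fun j _ => hm j
  have hbS : ∀ J ω, |∑ j ∈ range J, f j ω| ≤ J := by
    intro J ω
    refine (Finset.abs_sum_le_sum_abs _ _).trans ((Finset.sum_le_sum fun j _ => hf j ω).trans ?_)
    rw [Finset.sum_const, Finset.card_range, nsmul_eq_mul, mul_one]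
  have h1 := ae_tendsto_zero (μ := μ)
    (f := fun i ω => ((∑ j ∈ range ((i + 1) ^ q), f j ω) / (((i + 1) ^ q : ℕ) : ℝ)) ^ 2)
    (fun i => ((hmS _).div_const _).pow_const 2) (fun i ω => sq_nonneg _)
    (fun i => Integrable.of_bound (((hmS _).div_const _).pow_const 2).aestronglyMeasurable 1
      (Eventually.of_forall fun ω => by
        rw [Real.norm_eq_abs, abs_pow, abs_div, Nat.abs_cast]
        have h2 : |∑ j ∈ range ((i + 1) ^ q), f j ω| / (((i + 1) ^ q : ℕ) : ℝ) ≤ 1 :=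
          div_le_one_of_le₀ (hbS _ _) (Nat.cast_nonneg _)
        exact pow_le_one₀ (by positivity) h2))
    (fun i => |C| * (1 / ((i + 1 : ℕ) : ℝ) ^ 2))
    (((summable_nat_add_iff 1).2 (Real.summable_one_div_nat_pow.2 (by norm_num : 1 < 2))).mul_left _)
    (fun i => by
      set N : ℕ := (i + 1) ^ q with hN
      have hi1 : (1 : ℝ) ≤ ((i + 1 : ℕ) : ℝ) := by exact_mod_cast Nat.le_add_left 1 i
      have hNN : (N : ℝ) = ((i + 1 : ℕ) : ℝ) ^ q := by
        rw [hN]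
        push_cast
        ring
      have hN1 : 1 ≤ N := Nat.one_le_pow _ _ (by omega)
      have hNr : (1 : ℝ) ≤ N := by exact_mod_cast hN1
      have hNp : (0 : ℝ) < N := by linarith
      have e : ∫ ω, ((∑ j ∈ range N, f j ω) / (N : ℝ)) ^ 2 ∂μ =
          (∫ ω, (∑ j ∈ range N, f j ω) ^ 2 ∂μ) / (N : ℝ) ^ 2 := by
        rw [← integral_div]
        refine integral_congr_ae (Eventually.of_forall fun ω => ?_)
        simp only
        rw [div_pow]
      rw [e]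
      have h2 : (∫ ω, (∑ j ∈ range N, f j ω) ^ 2 ∂μ) ≤ |C| * (N : ℝ) ^ (1 + g) := by
        refine (h N hN1).trans ?_
        exact mul_le_mul_of_nonneg_right (le_abs_self C) (by positivity)
      rw [div_le_iff₀ (by positivity)]
      refine h2.trans ?_
      rw [mul_assoc]
      refine mul_le_mul_of_nonneg_left ?_ (abs_nonneg C)
      rw [div_mul_eq_mul_div, one_mul, le_div_iff₀ (by positivity)]
      have h3 : ((i + 1 : ℕ) : ℝ) ^ 2 ≤ (N : ℝ) ^ (1 - g) := by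
        rw [hNN, ← Real.rpow_natCast ((i + 1 : ℕ) : ℝ) q, ← Real.rpow_mul (by linarith),
          ← Real.rpow_natCast ((i + 1 : ℕ) : ℝ) 2]
        refine Real.rpow_le_rpow_of_exponent_le hi1 ?_
        rw [div_le_iff₀ hg'] at hq
        push_cast
        linarith
      calc (N : ℝ) ^ (1 + g) * ((i + 1 : ℕ) : ℝ) ^ 2 ≤ (N : ℝ) ^ (1 + g) * (N : ℝ) ^ (1 - g) :=
            mul_le_mul_of_nonneg_left h3 (by positivity)
        _ = (N : ℝ) ^ 2 := by
            rw [← Real.rpow_add hNp, ← Real.rpow_natCast (N : ℝ) 2]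
            congr 1
            push_cast
            ring)
  filter_upwards [h1] with ω hω
  refine avg_of_pow (fun j => f j ω) (fun j => hf j ω) q hq1 ?_
  have h2 : Tendsto (fun i : ℕ => ((∑ j ∈ range (i ^ q), f j ω) / ((i ^ q : ℕ) : ℝ)) ^ 2) atTop
      (𝓝 0) := by
    rw [← tendsto_add_atTop_iff_nat 1]
    exact hω
  have h3 := (Real.continuous_sqrt.tendsto 0).comp h2
  rw [Real.sqrt_zero] at h3
  refine (tendsto_zero_iff_abs_tendsto_zero _).2 (h3.congr fun j => ?_)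
  simp only [Function.comp_apply]
  exact Real.sqrt_sq_eq_abs _

end avg

variable {Ω : Type} [MeasurableSpace Ω] {P : Measure Ω} [IsProbabilityMeasure P]
  {ξ : ℕ → Ω → Bool} {p : ℕ → ℝ} {G : PowerSeries (ZMod 2)}

theorem Bits.second_rate (hξ : Bits P ξ p) (hG : PowerSeries.constantCoeff G = 1) {c₀ θ : ℝ}
    (hc₀ : 0 < c₀) (hθ : 0 < θ) (hθ1 : θ < 1) (hp : Rate c₀ θ p) (S : Finset ℕ) (h0 : 0 ∈ S)
    (n : ℕ → ℕ) (hn : StrictMono n) (K κ : ℝ) (hκ0 : 0 ≤ κ) (hκ : θ * κ < 1)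
    (hK : ∀ j, (n j : ℝ) ≤ K * ((j : ℝ) + 1) ^ κ) :
    ∃ g C : ℝ, g < 1 ∧ ∀ J : ℕ, 1 ≤ J →
      ∫ ω, (∑ j ∈ range J, sn G S (n j) (path ξ ω)) ^ 2 ∂P ≤ C * (J : ℝ) ^ (1 + g) := by
  set L : ℕ := S.sup id with hL
  have hS : ∀ l ∈ S, l ≤ L := fun l hl => Finset.le_sup (f := id) hl
  -- the exponents
  set g : ℝ := (1 + θ * κ) / 2 with hg
  have hg1 : g < 1 := by rw [hg]; linarith
  have hgκ : θ * κ < g := by rw [hg]; linarith
  have hg0 : 0 < g := by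
    have : 0 ≤ θ * κ := by positivity
    linarith
  obtain ⟨i, hi⟩ : ∃ i : ℕ, θ ^ i < 1 - θ * κ / g := by
    refine exists_pow_lt_of_lt_one ?_ hθ1
    rw [sub_pos, div_lt_one hg0]
    exact hgκ
  set x : ℝ := 1 - θ ^ i with hx
  have hx0 : 0 ≤ x := by
    have := pow_le_one₀ hθ.le hθ1.le (n := i)
    rw [hx]
    linarith
  have hgx : 0 < g * x - θ * κ := by
    have h1 : θ * κ / g < x := by rw [hx]; linarith
    rw [div_lt_iff₀ hg0] at h1
    linarith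
  obtain ⟨c, hc, hGP⟩ := hξ.growth hG hc₀ hθ hθ1 hp i (L / 2) (half S) (half_le hS)
    (zero_mem_half h0)
  obtain ⟨A, hA⟩ := exists_nat_ge (1 / g)
  obtain ⟨C1, hC10, hC1⟩ := hGP A
  set K' : ℝ := |K| * 2 ^ κ + 1 with hK'
  have hK'0 : 0 < K' := by positivity
  obtain ⟨C2, hC20, hC2⟩ := exp_small (2 * c₀ * K' ^ (-θ) * c) (g * x - θ * κ) (by positivity) hgx 1
  refine ⟨g, 16 + 2 * L + 1 + C1 + C2, hg1, fun J hJ => ?_⟩
  have hJ1 : (1 : ℝ) ≤ J := by exact_mod_cast hJ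
  have hJ0 : (0 : ℝ) < J := by linarith
  set Q : ℕ := ⌈(J : ℝ) ^ g⌉₊ with hQ
  have hJg1 : 1 ≤ (J : ℝ) ^ g := Real.one_le_rpow hJ1 hg0.le
  have hQ1 : (J : ℝ) ^ g ≤ Q := Nat.le_ceil _
  have hQ2 : (Q : ℝ) ≤ 2 * (J : ℝ) ^ g := by
    have := Nat.ceil_lt_add_one (by linarith : 0 ≤ (J : ℝ) ^ g)
    rw [← hQ] at this
    linarith
  have hQn : 1 ≤ Q := Nat.one_le_ceil_iff.2 (by linarith)
  set Z : ℝ := K' * (J : ℝ) ^ κ with hZ
  have hZ0 : 0 < Z := by positivity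
  have hnJ : (n J : ℝ) ≤ Z := by
    refine (hK J).trans ?_
    have h1 : ((J : ℝ) + 1) ^ κ ≤ (2 * J) ^ κ := Real.rpow_le_rpow (by linarith) (by linarith) hκ0
    rw [Real.mul_rpow (by norm_num) hJ0.le] at h1
    calc K * ((J : ℝ) + 1) ^ κ ≤ |K| * (2 ^ κ * (J : ℝ) ^ κ) :=
          mul_le_mul (le_abs_self K) h1 (by positivity) (abs_nonneg K)
      _ = |K| * 2 ^ κ * (J : ℝ) ^ κ := by ring
      _ ≤ Z := by
          rw [hZ, hK']
          have : 0 ≤ (J : ℝ) ^ κ := by positivity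
          nlinarith
  set β : ℝ := 2 * c₀ * Z ^ (-θ) with hβ
  have hβ0 : 0 ≤ β := by positivity
  have hβk : ∀ k : ℕ, 1 ≤ k → k ≤ n J → β ≤ 2 * p k ∧ β ≤ 2 * (1 - p k) := by
    intro k hk hkJ
    have h1 := hp k hk
    have hkZ : (k : ℝ) ≤ Z := by
      have : (k : ℝ) ≤ n J := by exact_mod_cast hkJ
      linarith
    have h2 : Z ^ (-θ) ≤ (k : ℝ) ^ (-θ) :=
      Real.rpow_le_rpow_of_nonpos (by exact_mod_cast hk) hkZ (by linarith)
    have h3 := mul_le_mul_of_nonneg_left h2 hc₀.le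
    constructor <;> linarith [h1.1, h1.2]
  have h1 := hξ.second hG S L hS n hn J (2 * Q) β hβk hβ0 (c * (Q : ℝ) ^ x)
  rw [show 2 * Q / 2 = Q by omega] at h1
  refine h1.trans ?_
  have h2 : P.real {ω | (Y G (half S) Q (path ξ ω) : ℝ) < c * (Q : ℝ) ^ x} ≤ C1 / J := by
    refine (hC1 Q hQn).trans ?_
    refine div_le_div_of_nonneg_left hC10 hJ0 ?_
    calc (J : ℝ) = (J : ℝ) ^ (1 : ℝ) := (Real.rpow_one _).symm
      _ ≤ (J : ℝ) ^ (g * A) := by
          refine Real.rpow_le_rpow_of_exponent_le hJ1 ?_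
          rw [div_le_iff₀ hg0] at hA
          linarith
      _ = ((J : ℝ) ^ g) ^ A := by
          rw [Real.rpow_mul hJ0.le, Real.rpow_natCast]
      _ ≤ (Q : ℝ) ^ A := pow_le_pow_left₀ (by positivity) hQ1 A
  have h3 : Real.exp (-(β * (c * (Q : ℝ) ^ x))) ≤ C2 / J := by
    have h4 := hC2 J hJ
    rw [pow_one] at h4
    refine le_trans (Real.exp_le_exp.2 (neg_le_neg ?_)) h4
    have h5 : (J : ℝ) ^ (g * x) ≤ (Q : ℝ) ^ x := by
      rw [Real.rpow_mul hJ0.le]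
      exact Real.rpow_le_rpow (by positivity) hQ1 hx0
    have h6 : β = 2 * c₀ * K' ^ (-θ) * (J : ℝ) ^ (-(θ * κ)) := by
      rw [hβ, hZ, Real.mul_rpow hK'0.le (by positivity), ← Real.rpow_mul hJ0.le]
      rw [show κ * -θ = -(θ * κ) by ring]
      ring
    have h7 : (J : ℝ) ^ (g * x - θ * κ) = (J : ℝ) ^ (g * x) * (J : ℝ) ^ (-(θ * κ)) := by
      rw [← Real.rpow_add hJ0]
      congr 1
    rw [h6, h7]
    calc 2 * c₀ * K' ^ (-θ) * c * ((J : ℝ) ^ (g * x) * (J : ℝ) ^ (-(θ * κ))) =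
        2 * c₀ * K' ^ (-θ) * (J : ℝ) ^ (-(θ * κ)) * (c * (J : ℝ) ^ (g * x)) := by ring
      _ ≤ 2 * c₀ * K' ^ (-θ) * (J : ℝ) ^ (-(θ * κ)) * (c * (Q : ℝ) ^ x) := by gcongr
  have h4 : (J : ℝ) * (4 * ((2 * Q : ℕ) : ℝ) + 2 * L + 1) + (J : ℝ) ^ 2 *
      (P.real {ω | (Y G (half S) Q (path ξ ω) : ℝ) < c * (Q : ℝ) ^ x} +
        Real.exp (-(β * (c * (Q : ℝ) ^ x)))) ≤
      J * (16 * (J : ℝ) ^ g + 2 * L + 1) + (J : ℝ) ^ 2 * (C1 / J + C2 / J) := by
    push_cast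
    have a1 : 4 * (2 * (Q : ℝ)) + 2 * L + 1 ≤ 16 * (J : ℝ) ^ g + 2 * L + 1 := by linarith
    have a2 := mul_le_mul_of_nonneg_left a1 hJ0.le
    have a3 := mul_le_mul_of_nonneg_left (add_le_add h2 h3) (by positivity : 0 ≤ (J : ℝ) ^ 2)
    linarith
  refine h4.trans ?_
  have h5 : (J : ℝ) ^ 2 * (C1 / J + C2 / J) = J * (C1 + C2) := by
    field_simp
  have h6 : (J : ℝ) ^ (1 + g) = J * (J : ℝ) ^ g := by
    rw [Real.rpow_add hJ0, Real.rpow_one]
  rw [h5, h6]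
  have hL0 : (0 : ℝ) ≤ L := Nat.cast_nonneg _
  have h7 : 16 * (J : ℝ) ^ g + 2 * L + 1 + (C1 + C2) ≤ (16 + 2 * L + 1 + C1 + C2) * (J : ℝ) ^ g := by
    nlinarith
  have h8 := mul_le_mul_of_nonneg_left h7 hJ0.le
  nlinarith

/-- the sequences that are allowed -/
def Slow (θ : ℝ) (n : ℕ → ℕ) : Prop :=
  StrictMono n ∧ ∃ K κ : ℝ, 0 ≤ κ ∧ θ * κ < 1 ∧ ∀ j, (n j : ℝ) ≤ K * ((j : ℝ) + 1) ^ κ

theorem Slow.add {θ : ℝ} {n : ℕ → ℕ} (h : Slow θ n) (a : ℕ) : Slow θ (fun j => n j + a) := by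
  obtain ⟨hn, K, κ, hκ0, hκ, hK⟩ := h
  refine ⟨fun i j hij => Nat.add_lt_add_right (hn hij) a, K + a, κ, hκ0, hκ, fun j => ?_⟩
  have h1 : (1 : ℝ) ≤ ((j : ℝ) + 1) ^ κ :=
    Real.one_le_rpow (by linarith [Nat.cast_nonneg (α := ℝ) j]) hκ0
  have h2 : (0 : ℝ) ≤ a := Nat.cast_nonneg _
  have h3 := hK j
  push_cast
  nlinarith

theorem Bits.ae_normalised (hξ : Bits P ξ p) (hG : PowerSeries.constantCoeff G = 1) {c₀ θ : ℝ}
    (hc₀ : 0 < c₀) (hθ : 0 < θ) (hθ1 : θ < 1) (hp : Rate c₀ θ p) (S : Finset ℕ) (h0 : 0 ∈ S)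
    (n : ℕ → ℕ) (hn : Slow θ n) :
    ∀ᵐ ω ∂P, Tendsto (fun J : ℕ => (∑ j ∈ range J, sn G S (n j) (path ξ ω)) / (J : ℝ)) atTop
      (𝓝 0) := by
  obtain ⟨hn1, K, κ, hκ0, hκ, hK⟩ := hn
  obtain ⟨g, C, hg, h⟩ := hξ.second_rate hG hc₀ hθ hθ1 hp S h0 n hn1 K κ hκ0 hκ hK
  refine ae_avg _ (fun j => hξ.measurable (dep_sn hG S (S.sup id)
    (fun l hl => Finset.le_sup (f := id) hl) (n j))) (fun j ω => (abs_sn S (n j) _).le) g C hg h

/-- signs of all linear forms cancel along `n` -/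
theorem Bits.ae_forms (hξ : Bits P ξ p) (hG : PowerSeries.constantCoeff G = 1) {c₀ θ : ℝ}
    (hc₀ : 0 < c₀) (hθ : 0 < θ) (hθ1 : θ < 1) (hp : Rate c₀ θ p) (n : ℕ → ℕ) (hn : Slow θ n) :
    ∀ᵐ ω ∂P, ∀ S : Finset ℕ, S.Nonempty →
      Tendsto (fun J : ℕ => (∑ j ∈ range J, sn G S (n j) (path ξ ω)) / (J : ℝ)) atTop (𝓝 0) := by
  rw [ae_all_iff]
  intro S
  by_cases hS : S.Nonempty
  · set a := S.min' hS with ha
    set T : Finset ℕ := S.image (· - a) with hT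
    have h0 : 0 ∈ T := Finset.mem_image.2 ⟨a, Finset.min'_mem S hS, Nat.sub_self a⟩
    filter_upwards [hξ.ae_normalised hG hc₀ hθ hθ1 hp T h0 _ (hn.add a)] with ω hω _
    refine hω.congr fun J => ?_
    congr 1
    refine Finset.sum_congr rfl fun j _ => ?_
    unfold sn lin
    congr 1
    rw [hT, Finset.sum_image]
    · refine Finset.sum_congr rfl fun l hl => ?_
      have := Finset.min'_le S l hl
      rw [← ha] at this
      congr 1
      omega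
    · intro b hb c hc hbc
      have h1 := Finset.min'_le S b hb
      have h2 := Finset.min'_le S c hc
      rw [← ha] at h1 h2
      simp only at hbc
      omega
  · exact Eventually.of_forall fun ω h => absurd h hS

/-- frequencies of the blocks from the signs -/
theorem freq (r : ℕ → ZMod 2) (n : ℕ → ℕ)
    (h : ∀ S : Finset ℕ, S.Nonempty → Tendsto (fun J : ℕ =>
      (∑ j ∈ range J, sg (∑ l ∈ S, r (n j + l))) / (J : ℝ)) atTop (𝓝 0))
    (L : ℕ) (e : ℕ → ZMod 2) :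
    Tendsto (fun J : ℕ => (((range J).filter fun j => ∀ i < L, r (n j + i) = e i).card : ℝ) / J)
      atTop (𝓝 (1 / 2 ^ L)) := by
  classical
  -- the indicator
  have hind : ∀ j, (if ∀ i < L, r (n j + i) = e i then (1 : ℝ) else 0) =
      (1 / 2 ^ L) * ∑ S ∈ (range L).powerset, (∏ i ∈ S, sg (e i)) * sg (∑ l ∈ S, r (n j + l)) := by
    intro j
    have h1 : ∀ S ∈ (range L).powerset, (∏ i ∈ S, sg (e i)) * sg (∑ l ∈ S, r (n j + l)) =
        ∏ i ∈ S, sg (r (n j + i) + e i) := by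
      intro S _
      rw [sg_sum, ← Finset.prod_mul_distrib]
      refine Finset.prod_congr rfl fun i _ => ?_
      rw [sg_add, mul_comm]
    rw [Finset.sum_congr rfl h1, ← Finset.prod_one_add]
    have h2 : ∀ x y : ZMod 2, 1 + sg (x + y) = if x = y then 2 else 0 := by
      intro x y
      have h3 : ∀ x y : ZMod 2, x + y = 0 ↔ x = y := by decide
      unfold sg
      by_cases hxy : x = y
      · rw [if_pos ((h3 x y).2 hxy), if_pos hxy]
        norm_num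
      · rw [if_neg (fun h4 => hxy ((h3 x y).1 h4)), if_neg hxy]
        norm_num
    rw [Finset.prod_congr rfl fun i _ => h2 (r (n j + i)) (e i)]
    split_ifs with hall
    · rw [Finset.prod_congr rfl fun i hi => if_pos (hall i (Finset.mem_range.1 hi)),
        Finset.prod_const, Finset.card_range]
      field_simp
    · push Not at hall
      obtain ⟨i, hi, hne⟩ := hall
      rw [Finset.prod_eq_zero (Finset.mem_range.2 hi) (if_neg hne), mul_zero]
  have hcount : ∀ J : ℕ, (((range J).filter fun j => ∀ i < L, r (n j + i) = e i).card : ℝ) / J =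
      (1 / 2 ^ L) * ∑ S ∈ (range L).powerset, (∏ i ∈ S, sg (e i)) *
        ((∑ j ∈ range J, sg (∑ l ∈ S, r (n j + l))) / (J : ℝ)) := by
    intro J
    rw [Finset.card_filter]
    push_cast
    rw [Finset.sum_congr rfl fun j _ => hind j, ← Finset.mul_sum, Finset.sum_comm, mul_div_assoc,
      Finset.sum_div]
    congr 1
    refine Finset.sum_congr rfl fun S _ => ?_
    rw [← Finset.mul_sum, mul_div_assoc]
  have hlim : ∀ S ∈ (range L).powerset, Tendsto (fun J : ℕ => (∏ i ∈ S, sg (e i)) *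
      ((∑ j ∈ range J, sg (∑ l ∈ S, r (n j + l))) / (J : ℝ))) atTop
      (𝓝 (if S = ∅ then 1 else 0)) := by
    intro S _
    by_cases hS : S = ∅
    · rw [if_pos hS, hS]
      refine Tendsto.congr' ?_ tendsto_const_nhds
      filter_upwards [eventually_ge_atTop 1] with J hJ
      have hJ0 : (J : ℝ) ≠ 0 := by
        have : (0 : ℝ) < J := by exact_mod_cast hJ
        exact this.ne'
      simp [sg, hJ0]
    · rw [if_neg hS]
      have := (h S (Finset.nonempty_iff_ne_empty.2 hS)).const_mul (∏ i ∈ S, sg (e i))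
      rwa [mul_zero] at this
  have h2 := (tendsto_finsetSum _ hlim).const_mul ((1 : ℝ) / 2 ^ L)
  have h3 : ∑ S ∈ (range L).powerset, (if S = ∅ then (1 : ℝ) else 0) = 1 := by
    rw [Finset.sum_ite_eq' (range L).powerset ∅ (fun _ => (1 : ℝ)), if_pos (Finset.empty_mem_powerset _)]
  rw [h3, mul_one] at h2
  exact h2.congr fun J => (hcount J).symm

end Pool.Agent.Q167.NS
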