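import Pool.Agent.Q167.NS.H

set_option autoImplicit false

/-!
# Few errors
-/

namespace Pool.Agent.Q167.NS

open Finset MeasureTheory ProbabilityTheory Filter Topology
open scoped NNReal

/-- the law of one bit -/
noncomputable def bit (x : ℝ) : Measure Bool :=
  (PMF.bernoulli (min x.toNNReal 1) (min_le_right _ _)).toMeasure

noncomputable instance (x : ℝ) : IsProbabilityMeasure (bit x) := by
  unfold bit
  infer_instance

theorem bits_exist (p : ℕ → ℝ) (h0 : ∀ k, 0 ≤ p k) (h1 : ∀ k, p k ≤ 1) :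
    Bits (Measure.infinitePi fun k => bit (p k)) (fun k (ω : ℕ → Bool) => ω k) p where
  meas k := measurable_pi_apply k
  indep := iIndepFun_infinitePi (P := fun k => bit (p k)) (X := fun _ (x : Bool) => x)
    (fun _ => measurable_id)
  prob k := by
    have h2 : (Measure.infinitePi fun k => bit (p k)).map (fun x : ℕ → Bool => x k) = bit (p k) :=
      (measurePreserving_eval_infinitePi _ k).map_eq
    have h3 : (Measure.infinitePi fun k => bit (p k)) {ω : ℕ → Bool | ω k = true} =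
        bit (p k) {true} := by
      rw [← h2, Measure.map_apply (measurable_pi_apply k) MeasurableSet.of_discrete]
      rfl
    rw [Measure.real, h3, bit, PMF.toMeasure_apply_singleton _ _ (measurableSet_singleton _),
      PMF.bernoulli_apply]
    have h5 : min (p k).toNNReal 1 = (p k).toNNReal := min_eq_left (Real.toNNReal_le_one.2 (h1 k))
    rw [cond_true, h5, ENNReal.coe_toReal, Real.coe_toNNReal _ (h0 k)]

/-- the number of errors up to `N` -/
noncomputable def cnt (ω : ℕ → Bool) (N : ℕ) : ℕ := ((Icc 1 N).filter fun k => ω k = true).card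

theorem dep_cnt (N : ℕ) : Dep (N + 1) (fun ω => (cnt ω N : ℝ)) := by
  intro ω ω' h
  have e : (Icc 1 N).filter (fun k => ω k = true) = (Icc 1 N).filter (fun k => ω' k = true) := by
    refine Finset.filter_congr fun k hk => ?_
    rw [Finset.mem_Icc] at hk
    rw [h k (by omega)]
  simp only [cnt]
  rw [e]

theorem Bits.mean_cnt {Ω : Type} [MeasurableSpace Ω] {P : Measure Ω} [IsProbabilityMeasure P]
    {ξ : ℕ → Ω → Bool} {p : ℕ → ℝ} (hξ : Bits P ξ p) (N : ℕ) :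
    ∫ ω, (cnt (path ξ ω) N : ℝ) ∂P = ∑ k ∈ Icc 1 N, p k := by
  have e : ∀ ω, (cnt (path ξ ω) N : ℝ) =
      ∑ k ∈ Icc 1 N, Set.indicator {ω | ξ k ω = true} (fun _ => (1 : ℝ)) ω := by
    intro ω
    unfold cnt
    rw [Finset.card_filter]
    push_cast
    refine Finset.sum_congr rfl fun k _ => ?_
    rw [Set.indicator_apply]
    rfl
  have hms : ∀ k, MeasurableSet {ω | ξ k ω = true} := fun k =>
    hξ.meas k (measurableSet_singleton true)
  rw [integral_congr_ae (Eventually.of_forall e), integral_finsetSum]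
  · refine Finset.sum_congr rfl fun k _ => ?_
    rw [integral_indicator_const _ (hms k), smul_eq_mul, mul_one, hξ.prob k]
  · exact fun k _ => (integrable_const (1 : ℝ)).indicator (hms k)

theorem sum_rate (θ : ℝ) (hθ1 : θ < 1) (N : ℕ) (hN : 1 ≤ N) :
    ∑ k ∈ Icc 1 N, 1 / 2 * (k : ℝ) ^ (-θ) ≤ (N : ℝ) ^ (1 - θ) * (1 + Real.log N) := by
  have h1 : ∀ k ∈ Icc 1 N, 1 / 2 * (k : ℝ) ^ (-θ) ≤ (N : ℝ) ^ (1 - θ) * (k : ℝ)⁻¹ := by
    intro k hk
    rw [Finset.mem_Icc] at hk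
    have hk0 : (0 : ℝ) < k := by exact_mod_cast hk.1
    have e : (k : ℝ) ^ (-θ) = (k : ℝ) ^ (1 - θ) * (k : ℝ)⁻¹ := by
      rw [← Real.rpow_neg_one (k : ℝ), ← Real.rpow_add hk0]
      congr 1
      ring
    have h2 : (k : ℝ) ^ (1 - θ) ≤ (N : ℝ) ^ (1 - θ) :=
      Real.rpow_le_rpow hk0.le (by exact_mod_cast hk.2) (by linarith)
    have h3 : (k : ℝ) ^ (-θ) ≤ (N : ℝ) ^ (1 - θ) * (k : ℝ)⁻¹ := by
      rw [e]
      exact mul_le_mul_of_nonneg_right h2 (by positivity)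
    have h4 : 0 ≤ (k : ℝ) ^ (-θ) := by positivity
    linarith
  refine (Finset.sum_le_sum h1).trans ?_
  rw [← Finset.mul_sum]
  refine mul_le_mul_of_nonneg_left ?_ (by positivity)
  have h2 := harmonic_le_one_add_log N
  have h3 : ((harmonic N : ℚ) : ℝ) = ∑ k ∈ Icc 1 N, (k : ℝ)⁻¹ := by
    rw [harmonic_eq_sum_Icc]
    push_cast
    rfl
  rwa [h3] at h2

/-- few errors, almost surely -/
theorem Bits.ae_few {Ω : Type} [MeasurableSpace Ω] {P : Measure Ω} [IsProbabilityMeasure P]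
    {ξ : ℕ → Ω → Bool} {θ : ℝ} (hθ1 : θ < 1)
    (hξ : Bits P ξ (fun k => 1 / 2 * (k : ℝ) ^ (-θ))) (η : ℝ) (hη : 1 - θ < η) :
    ∀ᵐ ω ∂P, ∀ᶠ N : ℕ in atTop, (cnt (path ξ ω) N : ℝ) ≤ (N : ℝ) ^ η := by
  set a : ℝ := (1 - θ + η) / 2 with ha
  have ha1 : 1 - θ < a := by rw [ha]; linarith
  have ha2 : a < η := by rw [ha]; linarith
  have ha0 : 0 < a := by linarith
  set r : ℝ := (2 : ℝ) ^ (-(a - (1 - θ))) with hr
  have hr0 : 0 < r := by positivity
  have hr1 : r < 1 := Real.rpow_lt_one_of_one_lt_of_neg (by norm_num) (by linarith)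
  have hsum : Summable fun i : ℕ => r ^ i + (i : ℝ) ^ 1 * r ^ i :=
    (summable_geometric_of_lt_one hr0.le hr1).add
      (summable_pow_mul_geometric_of_norm_lt_one 1 (by
        rw [Real.norm_eq_abs, abs_of_pos hr0]
        exact hr1))
  have h1 := ae_tendsto_zero (μ := P)
    (f := fun i ω => (cnt (path ξ ω) (2 ^ i) : ℝ) / ((2 ^ i : ℕ) : ℝ) ^ a)
    (fun i => (hξ.measurable (dep_cnt (2 ^ i))).div_const _)
    (fun i ω => by positivity)
    (fun i => (hξ.integrable (dep_cnt (2 ^ i))).div_const _)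
    (fun i => r ^ i + (i : ℝ) ^ 1 * r ^ i) hsum
    (fun i => by
      have hN : 1 ≤ 2 ^ i := Nat.one_le_two_pow
      rw [integral_div, hξ.mean_cnt]
      have h2 := sum_rate θ hθ1 (2 ^ i) hN
      have hp : (0 : ℝ) < ((2 ^ i : ℕ) : ℝ) := by positivity
      rw [div_le_iff₀ (by positivity)]
      refine h2.trans ?_
      have e1 : r ^ i = ((2 ^ i : ℕ) : ℝ) ^ (1 - θ) / ((2 ^ i : ℕ) : ℝ) ^ a := by
        rw [← Real.rpow_sub hp, hr, ← Real.rpow_natCast ((2 : ℝ) ^ (-(a - (1 - θ)))) i,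
          ← Real.rpow_mul (by norm_num)]
        push_cast
        rw [← Real.rpow_natCast (2 : ℝ) i, ← Real.rpow_mul (by norm_num)]
        congr 1
        ring
      have hl : Real.log ((2 ^ i : ℕ) : ℝ) ≤ i := by
        push_cast
        rw [Real.log_pow]
        have := Real.log_two_lt_d9
        have hi : (0 : ℝ) ≤ i := Nat.cast_nonneg _
        nlinarith
      have hpa : (0 : ℝ) < ((2 ^ i : ℕ) : ℝ) ^ a := by positivity
      rw [e1, pow_one]
      have e2 : (((2 ^ i : ℕ) : ℝ) ^ (1 - θ) / ((2 ^ i : ℕ) : ℝ) ^ a +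
          i * (((2 ^ i : ℕ) : ℝ) ^ (1 - θ) / ((2 ^ i : ℕ) : ℝ) ^ a)) * ((2 ^ i : ℕ) : ℝ) ^ a =
          ((2 ^ i : ℕ) : ℝ) ^ (1 - θ) * (1 + i) := by
        field_simp
      rw [e2]
      exact mul_le_mul_of_nonneg_left (by linarith) (by positivity))
  filter_upwards [h1] with ω hω
  have h2 : ∀ᶠ i : ℕ in atTop, (cnt (path ξ ω) (2 ^ i) : ℝ) / ((2 ^ i : ℕ) : ℝ) ^ a < 1 :=
    hω.eventually (gt_mem_nhds (by norm_num))
  obtain ⟨i0, hi0⟩ := eventually_atTop.1 h2
  have h3 : ∀ᶠ N : ℕ in atTop, (2 : ℝ) ^ a ≤ (N : ℝ) ^ (η - a) := by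
    have := (tendsto_rpow_atTop (by linarith : 0 < η - a)).comp tendsto_natCast_atTop_atTop
    exact this.eventually_ge_atTop _
  filter_upwards [h3, eventually_ge_atTop (2 ^ i0 + 1)] with N hN1 hN2
  have h20 := Nat.one_le_two_pow (n := i0)
  have hN0 : N ≠ 0 := by omega
  set i := Nat.log 2 N with hi
  have hlo : 2 ^ i ≤ N := Nat.pow_log_le_self 2 hN0
  have hup : N < 2 ^ (i + 1) := Nat.lt_pow_succ_log_self (by norm_num) N
  have hii : i0 ≤ i + 1 := by
    by_contra hno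
    rw [not_le] at hno
    have := Nat.pow_le_pow_right (n := 2) (by norm_num) (by omega : i + 1 ≤ i0)
    omega
  have h4 := hi0 (i + 1) hii
  have hpa : (0 : ℝ) < ((2 ^ (i + 1) : ℕ) : ℝ) ^ a := by positivity
  rw [div_lt_one hpa] at h4
  have h5 : cnt (path ξ ω) N ≤ cnt (path ξ ω) (2 ^ (i + 1)) := by
    unfold cnt
    refine Finset.card_le_card fun k hk => ?_
    obtain ⟨h6, h7⟩ := Finset.mem_filter.1 hk
    rw [Finset.mem_Icc] at h6
    exact Finset.mem_filter.2 ⟨Finset.mem_Icc.2 ⟨h6.1, by omega⟩, h7⟩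
  have h5r : (cnt (path ξ ω) N : ℝ) ≤ cnt (path ξ ω) (2 ^ (i + 1)) := by exact_mod_cast h5
  have hNp : (0 : ℝ) < N := by
    have : 0 < N := by omega
    exact_mod_cast this
  have h6 : ((2 ^ (i + 1) : ℕ) : ℝ) ^ a ≤ (2 : ℝ) ^ a * (N : ℝ) ^ a := by
    rw [← Real.mul_rpow (by norm_num) hNp.le]
    refine Real.rpow_le_rpow (by positivity) ?_ ha0.le
    have h7 : 2 ^ (i + 1) ≤ 2 * N := by
      rw [pow_succ]
      omega
    exact_mod_cast h7
  calc (cnt (path ξ ω) N : ℝ) ≤ ((2 ^ (i + 1) : ℕ) : ℝ) ^ a := h5r.trans h4.le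
    _ ≤ (2 : ℝ) ^ a * (N : ℝ) ^ a := h6
    _ ≤ (N : ℝ) ^ (η - a) * (N : ℝ) ^ a := mul_le_mul_of_nonneg_right hN1 (by positivity)
    _ = (N : ℝ) ^ η := by
        rw [← Real.rpow_add hNp]
        congr 1
        ring

theorem slow_ap {θ : ℝ} (hθ1 : θ < 1) (q a : ℕ) (hq : 1 ≤ q) : Slow θ (fun j => q * j + a) := by
  refine ⟨fun i j hij => ?_, q + a, 1, by norm_num, by linarith, fun j => ?_⟩
  · have := Nat.mul_lt_mul_of_pos_left hij hq
    change q * i + a < q * j + a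
    omega
  · rw [Real.rpow_one]
    push_cast
    have h1 : (0 : ℝ) ≤ j := Nat.cast_nonneg _
    have h2 : (0 : ℝ) ≤ a := Nat.cast_nonneg _
    have h3 : (0 : ℝ) ≤ q := Nat.cast_nonneg _
    nlinarith

/-- every series has a reciprocal with equidistributed blocks after few changes -/
theorem few_changes (G : PowerSeries (ZMod 2)) (hG : PowerSeries.constantCoeff G = 1) (η : ℝ)
    (hη : 0 < η) : ∃ ω : ℕ → Bool, (∀ᶠ N : ℕ in atTop, (cnt ω N : ℝ) ≤ (N : ℝ) ^ η) ∧
      ∀ q a : ℕ, 1 ≤ q → ∀ S : Finset ℕ, S.Nonempty → Tendsto (fun J : ℕ =>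
        (∑ j ∈ range J, sn G S (q * j + a) ω) / (J : ℝ)) atTop (𝓝 0) := by
  set m : ℝ := min η 1 with hm
  have hm0 : 0 < m := lt_min hη one_pos
  have hm1 : m ≤ 1 := min_le_right _ _
  have hmη : m ≤ η := min_le_left _ _
  set θ : ℝ := 1 - m / 2 with hθ
  have hθ0 : 0 < θ := by rw [hθ]; linarith
  have hθ1 : θ < 1 := by rw [hθ]; linarith
  have hle : ∀ k : ℕ, (k : ℝ) ^ (-θ) ≤ 1 := by
    intro k
    rcases Nat.eq_zero_or_pos k with hk | hk
    · rw [hk, Nat.cast_zero, Real.zero_rpow (by linarith)]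
      norm_num
    · exact Real.rpow_le_one_of_one_le_of_nonpos (by exact_mod_cast hk) (by linarith)
  have hnn : ∀ k : ℕ, 0 ≤ (k : ℝ) ^ (-θ) := fun k => by positivity
  have hbits := bits_exist (fun k => 1 / 2 * (k : ℝ) ^ (-θ)) (fun k => by
      have := hnn k
      positivity) (fun k => by
      have := hle k
      linarith)
  have hrate : Rate (1 / 2) θ (fun k => 1 / 2 * (k : ℝ) ^ (-θ)) := fun k _ => by
    have := hle k
    constructor
    · exact le_rfl
    · linarith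
  have h1 := hbits.ae_few hθ1 η (by rw [hθ]; linarith)
  have h2 : ∀ᵐ ω ∂(Measure.infinitePi fun k : ℕ => bit (1 / 2 * (k : ℝ) ^ (-θ))),
      ∀ q a : ℕ, 1 ≤ q → ∀ S : Finset ℕ, S.Nonempty → Tendsto (fun J : ℕ =>
        (∑ j ∈ range J, sn G S (q * j + a) (path (fun k (ω : ℕ → Bool) => ω k) ω)) / (J : ℝ))
        atTop (𝓝 0) := by
    rw [ae_all_iff]
    intro q
    rw [ae_all_iff]
    intro a
    by_cases hq : 1 ≤ q
    · filter_upwards [hbits.ae_forms hG (by norm_num) hθ0 hθ1 hrate _ (slow_ap hθ1 q a hq)] with ω hω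
      exact fun _ => hω
    · exact Eventually.of_forall fun ω h => absurd h hq
  obtain ⟨ω, h3, h4⟩ := (h1.and h2).exists
  exact ⟨ω, h3, h4⟩

end Pool.Agent.Q167.NS
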